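import Pool.Agent.Lib.MP_107652_al.Twin.Spec

/-!
# MP_107652_al: an isomorphism of labelled graphs preserves the weighted girth
-/

set_option autoImplicit false

namespace WGTwin

open WGirth

namespace WgIsoAux

theorem le_side (V W : Type) (Γ : LGraph V) (Λ : LGraph W) (π : V ≃ W)
    (h1 : ∀ a b, Γ.graph.Adj a b ↔ Λ.graph.Adj (π a) (π b))
    (h2 : ∀ a b, Γ.graph.Adj a b → Λ.label s(π a, π b) = Γ.label s(a, b)) :
    wgirth Λ ≤ wgirth Γ := by
  unfold wgirth
  refine le_iInf fun v => le_iInf fun p => le_iInf fun hp => ?_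
  let f : Γ.graph →g Λ.graph := ⟨π, fun h => (h1 _ _).mp h⟩
  have hf : Function.Injective f := π.injective
  have hq : (p.map f).IsCycle := SimpleGraph.Walk.IsCycle.map hf hp
  have hw : weight Λ (p.map f) = weight Γ p := by
    unfold weight
    rw [SimpleGraph.Walk.length_map, SimpleGraph.Walk.edges_map, List.countP_map]
    congr 1
    refine List.countP_congr fun e he => ?_
    have he' : e ∈ Γ.graph.edgeSet := SimpleGraph.Walk.edges_subset_edgeSet p he
    have h3 : Λ.label (Sym2.map f e) = Γ.label e := by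
      induction e using Sym2.ind with
      | _ a b =>
        rw [SimpleGraph.mem_edgeSet] at he'
        exact h2 a b he'
    simp only [Function.comp_apply, h3]
  rw [← hw]
  exact (iInf_le _ (f v)).trans ((iInf_le _ (p.map f)).trans (iInf_le _ hq))

end WgIsoAux

theorem wgIso : WgIso := by
  intro V W Γ Λ π h1 h2
  refine le_antisymm ?_ (WgIsoAux.le_side V W Γ Λ π h1 h2)
  have h1' : ∀ a b, Λ.graph.Adj a b ↔ Γ.graph.Adj (π.symm a) (π.symm b) := by
    intro a b
    rw [h1, Equiv.apply_symm_apply, Equiv.apply_symm_apply]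
  refine WgIsoAux.le_side W V Λ Γ π.symm h1' fun a b hab => ?_
  have h3 := h2 (π.symm a) (π.symm b) ((h1' a b).mp hab)
  rw [Equiv.apply_symm_apply, Equiv.apply_symm_apply] at h3
  exact h3.symm

end WGTwin
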