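import Pool.Agent.Lib.MP_107652_al.Twin.Spec
import Pool.Agent.Lib.MP_107652_al.HeisDiv

/-!
# MP_107652_al, HeisGen: determinants of exponent sums, general form
-/

set_option autoImplicit false

namespace WGTwin

open WGirth WGirth.HeisDiv

namespace HeisGenAux

variable {n : ℕ}

/-- a central element -/
def cz (n : ℕ) (c : ZMod n) : Heis n := ⟨0, 0, c⟩

theorem cz_pow (c : ZMod n) (K : ℕ) : (cz n c) ^ K = ⟨0, 0, (K : ZMod n) * c⟩ := by
  induction K with
  | zero => ext <;> simp [one_p, one_q, one_r]
  | succ K ih =>
    rw [pow_succ, ih]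
    ext
    · simp [mul_p, cz]
    · simp [mul_q, cz]
    · simp [mul_r, cz]
      ring

theorem cz_comm (c : ZMod n) (a : Heis n) : Commute a (cz n c) := by
  show a * cz n c = cz n c * a
  ext
  · simp [mul_p, cz]
  · simp [mul_q, cz]
  · simp [mul_r, cz, add_comm]

theorem mul_eq (a b : Heis n) : a * b = (b * a) * cz n (a.p * b.q - b.p * a.q) := by
  ext
  · simp only [mul_p, cz]
    ring
  · simp only [mul_q, cz]
    ring
  · simp only [mul_r, mul_p, cz]
    ring

theorem pow_eq (a b : Heis n) (K : ℕ) (h : (a * b) ^ K = (b * a) ^ K) :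
    (K : ZMod n) * (a.p * b.q - b.p * a.q) = 0 := by
  rw [mul_eq a b, (cz_comm _ (b * a)).mul_pow] at h
  have h1 : (cz n (a.p * b.q - b.p * a.q)) ^ K = 1 := by
    have h2 : (b * a) ^ K * (cz n (a.p * b.q - b.p * a.q)) ^ K = (b * a) ^ K * 1 := by
      rw [mul_one]
      exact h
    exact mul_left_cancel h2
  rw [cz_pow] at h1
  exact congrArg Heis.r h1

theorem xy_pow' {k : ℕ} (h : n ∣ k) : (xx n * yy n) ^ k = (yy n * xx n) ^ k := by
  rw [xy_eq, (zz_comm (yy n * xx n)).mul_pow, zz_pow]
  have : (k : ZMod n) = 0 := (ZMod.natCast_eq_zero_iff k n).2 h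
  rw [this]
  exact mul_one _

end HeisGenAux

open HeisGenAux in
/-- **HeisGen.** -/
theorem heisGen : HeisGen := by
  intro W _ _ Λ hΛ x hx i j n hne hdvd g h K hgh
  obtain ⟨f, hf⟩ := exists_hom (Γ := Λ) hΛ (G := Heis n)
    (fun v => if v = i then xx n else if v = j then yy n else 1) (by
      intro s t hst
      have hst' : s ≠ t := hst.ne
      by_cases h1 : s = i
      · subst h1
        have ht : t ≠ s := Ne.symm hst'
        by_cases h2 : t = j
        · subst h2
          simp only [if_true, if_neg ht]
          exact xy_pow' (hdvd hst)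
        · simp only [if_true, if_neg ht, if_neg h2, mul_one, one_mul]
      · by_cases h2 : s = j
        · subst h2
          by_cases h3 : t = i
          · subst h3
            simp only [if_true, if_neg h1]
            rw [half_comm]
            exact (xy_pow' (hdvd hst.symm)).symm
          · have h4 : t ≠ s := Ne.symm hst'
            simp only [if_true, if_neg h1, if_neg h3, if_neg h4, mul_one, one_mul]
        · simp only [if_neg h1, if_neg h2, mul_one, one_mul])
  have hP : (pHom n).comp f =
      (AddMonoidHom.toMultiplicative (Int.castAddHom (ZMod n))).comp (x i) := by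
    apply hom_ext
    intro v
    rw [MonoidHom.comp_apply, MonoidHom.comp_apply, hf, hx]
    by_cases h1 : v = i
    · subst h1
      simp [pHom, xx]
    · have h1' : i ≠ v := Ne.symm h1
      by_cases h2 : v = j
      · subst h2
        simp [pHom, yy, h1, h1']
      · simp [pHom, h1, h2, h1', one_p]
  have hQ : (qHom n).comp f =
      (AddMonoidHom.toMultiplicative (Int.castAddHom (ZMod n))).comp (x j) := by
    apply hom_ext
    intro v
    rw [MonoidHom.comp_apply, MonoidHom.comp_apply, hf, hx]
    by_cases h1 : v = i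
    · subst h1
      have h3 : j ≠ v := Ne.symm hne
      simp [qHom, xx, h3]
    · by_cases h2 : v = j
      · subst h2
        simp [qHom, yy, h1]
      · have h2' : j ≠ v := Ne.symm h2
        simp [qHom, h1, h2, h2', one_q]
  have hp : ∀ g, (f g).p = ((Multiplicative.toAdd (x i g) : ℤ) : ZMod n) := fun g => by
    have := DFunLike.congr_fun hP g
    exact this
  have hq : ∀ g, (f g).q = ((Multiplicative.toAdd (x j g) : ℤ) : ZMod n) := fun g => by
    have := DFunLike.congr_fun hQ g
    exact this
  have h1 : (f g * f h) ^ K = (f h * f g) ^ K := by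
    rw [← map_mul, ← map_mul, ← map_pow, ← map_pow, hgh]
  have h2 := pow_eq _ _ K h1
  rw [hp, hp, hq, hq] at h2
  rw [← ZMod.intCast_zmod_eq_zero_iff_dvd]
  push_cast
  linear_combination h2

end WGTwin
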