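import Pool.Agent.Lib.MP_107652_al.Twin.Spec

/-!
# MP_107652_al: relations in the affine group of a domain
-/

set_option autoImplicit false

open Finset

namespace WGTwin

open WGirth

theorem relL : RelL := by
  intro p R _ _ X t hG g h n m k hg hh hk heq
  have ha1 : (g * h).a = t ^ (n + m) := by rw [AR.mul_a, hg, hh, zpow_add]
  have ha2 : (h * g).a = t ^ (n + m) := by rw [AR.mul_a, hg, hh, ← zpow_add, add_comm]
  rw [AR.pow_eq, AR.pow_eq] at heq
  have hb : (∑ j ∈ Finset.range k, ((g * h).a : R) ^ j) * (g * h).b =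
      (∑ j ∈ Finset.range k, ((h * g).a : R) ^ j) * (h * g).b := congrArg AR.b heq
  rw [ha1, ha2] at hb
  have h0 : (∑ j ∈ Finset.range k, ((t ^ (n + m) : Rˣ) : R) ^ j) * ((g * h).b - (h * g).b) = 0 := by
    rw [mul_sub, hb, sub_self]
  rcases mul_eq_zero.1 h0 with hL | hD
  · right
    by_cases h1 : t ^ (n + m) = 1
    · refine ⟨hG.inf _ h1, (hG.char k).1 ?_⟩
      rw [h1] at hL
      simpa using hL
    · exfalso
      have h2 := geom_sum_mul ((t ^ (n + m) : Rˣ) : R) k
      rw [hL, zero_mul] at h2
      have h3 : (t ^ (n + m)) ^ k = 1 := by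
        apply Units.ext
        rw [Units.val_pow_eq_pow_val, Units.val_one]
        exact (sub_eq_zero.1 h2.symm)
      have h4 : t ^ ((n + m) * (k : ℤ)) = 1 := by
        rw [zpow_mul, zpow_natCast]
        exact h3
      rcases mul_eq_zero.1 (hG.inf _ h4) with h5 | h5
      · apply h1
        rw [h5, zpow_zero]
      · have : k = 0 := by exact_mod_cast h5
        omega
  · left
    apply AR.ext
    · rw [ha1, ha2]
    · exact sub_eq_zero.1 hD

theorem cTL : CTL := by
  intro R _ _ g h k hg h1 h2
  rw [AR.commute_iff] at h1 h2 ⊢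
  have hne : (1 - (g.a : R)) ≠ 0 := by
    intro h3
    apply hg
    apply Units.ext
    rw [Units.val_one]
    exact (sub_eq_zero.1 h3).symm
  apply mul_left_cancel₀ hne
  linear_combination (1 - (h.a : R)) * h2 - (1 - (k.a : R)) * h1

end WGTwin
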