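import Pool.Agent.Lib.MP_107652_al.Twin.Spec

/-! # MP_107652_al: ResNil -/

set_option autoImplicit false

namespace WGTwin

open scoped commutatorElement

namespace ResNilAux

/-- the number deciding whether the images of `g` and `h` commute -/
def D {R : Type} [CommRing R] {G : Type} [Group G] (f : G →* AR R) (g h : G) : R :=
  (1 - ((f g).a : R)) * (f h).b - (1 - ((f h).a : R)) * (f g).b

theorem comm_b {R : Type} [CommRing R] {G : Type} [Group G] (f : G →* AR R) (g h : G) :
    (f ⁅g, h⁆).a = 1 ∧ (f ⁅g, h⁆).b = - D f g h := by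
  have e1 : f ⁅g, h⁆ * (f h * f g) = f g * f h := by
    rw [← map_mul, ← map_mul, ← map_mul, commutatorElement_def]
    congr 1
    group
  have ha : (f ⁅g, h⁆).a = 1 := by
    have h2 := congrArg AR.a e1
    simp only [AR.mul_a] at h2
    have h3 : (f g).a * (f h).a = 1 * ((f h).a * (f g).a) := by rw [one_mul, mul_comm]
    rw [h3] at h2
    exact mul_right_cancel h2
  refine ⟨ha, ?_⟩
  have h2 := congrArg AR.b e1
  simp only [AR.mul_b, ha, Units.val_one, one_mul] at h2
  unfold D
  linear_combination h2

end ResNilAux

open ResNilAux in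
theorem resNil : ResNil := by
  intro R _ X hsep G _ f H hX hH hcomm g g'
  have key : ∀ m : ℕ, ∀ g h : G, X ^ m ∣ D f g h := by
    intro m
    induction m with
    | zero => intro g h; simp
    | succ m ih =>
      let K : Subgroup G :=
        { carrier := {c | (f c).a = 1 ∧ X ^ m ∣ (f c).b}
          mul_mem' := by
            rintro a b ⟨ha, ha'⟩ ⟨hb, hb'⟩
            refine ⟨by rw [map_mul, AR.mul_a, ha, hb, one_mul], ?_⟩
            rw [map_mul, AR.mul_b]
            exact dvd_add ha' (Dvd.dvd.mul_left hb' _)
          one_mem' := by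
            refine ⟨by rw [map_one, AR.one_a], ?_⟩
            rw [map_one, AR.one_b]
            exact dvd_zero _
          inv_mem' := by
            rintro a ⟨ha, ha'⟩
            refine ⟨by rw [map_inv, AR.inv_a, ha, inv_one], ?_⟩
            rw [map_inv, AR.inv_b]
            exact Dvd.dvd.mul_left ha' _ }
      have hK : commutator G ≤ K := by
        rw [commutator_def, Subgroup.commutator_le]
        intro a _ b _
        obtain ⟨h1, h2⟩ := comm_b f a b
        refine ⟨h1, ?_⟩
        rw [h2]
        exact (dvd_neg).2 (ih a b)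
      intro g g'
      obtain ⟨h, hh, c, hc, e⟩ := hH g
      obtain ⟨h', hh', c', hc', e'⟩ := hH g'
      obtain ⟨c1, c2⟩ := hK hc
      obtain ⟨c1', c2'⟩ := hK hc'
      have hD := (AR.commute_iff (f h) (f h')).1 (hcomm h hh h' hh')
      have e2 : D f g g' = (1 - ((f h).a : R)) * (((f h').a : R) * (f c').b) -
          (1 - ((f h').a : R)) * (((f h).a : R) * (f c).b) := by
        unfold D
        rw [e, e']
        simp only [AR.mul_a, AR.mul_b, c1, c1', mul_one]
        linear_combination hD
      rw [e2, pow_succ']
      refine dvd_sub (mul_dvd_mul (hX h) (Dvd.dvd.mul_left c2' _))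
        (mul_dvd_mul (hX h') (Dvd.dvd.mul_left c2 _))
  have h0 : D f g g' = 0 := hsep _ fun m => key m g g'
  rw [AR.commute_iff]
  unfold D at h0
  linear_combination h0

end WGTwin
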