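import Pool.Agent.Lib.MP_107652_al.Twin.Spec

/-!
# MP_107652_al, twins: SGen
-/

set_option autoImplicit false

open Finset Pointwise

namespace WGTwin

open WGirth

namespace SGenAux

theorem zpow_sum {A ι : Type} [CommGroup A] (a : A) (s : Finset ι) (f : ι → ℤ) :
    a ^ (∑ i ∈ s, f i) = ∏ i ∈ s, a ^ f i := by
  classical
  induction s using Finset.induction_on with
  | empty => simp
  | insert i s hi ih => rw [Finset.sum_insert hi, Finset.prod_insert hi, zpow_add, ih]

end SGenAux

theorem sGen : SGen := by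
  intro V W _ _ _ _ Γ Λ x hx φ Q _ f S T M' hS hM g
  set H : Subgroup (Artin Γ) := Subgroup.closure {y | ∃ w ∈ T, y = φ (gen Λ w)} with hH
  set K' : Subgroup (Abelianization (Artin Γ)) := (H ⊔ f.ker).map Abelianization.of with hK'
  let q : Artin Γ →* Abelianization (Artin Γ) ⧸ K' :=
    (QuotientGroup.mk' K').comp Abelianization.of
  have q1 : ∀ u ∈ H ⊔ f.ker, q u = 1 := by
    intro u hu
    show (QuotientGroup.mk' K') (Abelianization.of u) = 1
    rw [QuotientGroup.mk'_apply, QuotientGroup.eq_one_iff]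
    exact Subgroup.mem_map_of_mem _ hu
  have q2 : ∀ v, v ∉ S → q (gen Γ v) = 1 := fun v hv =>
    q1 _ (Subgroup.mem_sup_right (MonoidHom.mem_ker.2 (hS v hv)))
  have q3 : ∀ w ∈ T, ∏ v ∈ S, q (gen Γ v) ^ (mat x φ v w) = 1 := by
    intro w hw
    have h1 := hx.2 (Abelianization (Artin Γ) ⧸ K') q (φ (gen Λ w))
    rw [q1 _ (Subgroup.mem_sup_left (Subgroup.subset_closure ⟨w, hw, rfl⟩))] at h1
    rw [h1]
    refine Finset.prod_subset (Finset.subset_univ S) fun v _ hv => ?_
    rw [q2 v hv, one_zpow]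
  have q4 : ∀ s ∈ S, q (gen Γ s) = 1 := by
    intro s hs
    calc q (gen Γ s) = ∏ v ∈ S, q (gen Γ v) ^ (if v = s then (1 : ℤ) else 0) := by
          rw [Finset.prod_eq_single s]
          · rw [if_pos rfl, zpow_one]
          · intro v _ hv
            rw [if_neg hv, zpow_zero]
          · intro h
            exact absurd hs h
      _ = ∏ v ∈ S, q (gen Γ v) ^ (∑ w ∈ T, mat x φ v w * M' w s) :=
          Finset.prod_congr rfl fun v hv => by rw [hM s hs v hv]
      _ = ∏ v ∈ S, ∏ w ∈ T, (q (gen Γ v) ^ (mat x φ v w)) ^ (M' w s) := by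
          refine Finset.prod_congr rfl fun v _ => ?_
          rw [SGenAux.zpow_sum]
          exact Finset.prod_congr rfl fun w _ => by rw [zpow_mul]
      _ = ∏ w ∈ T, (∏ v ∈ S, q (gen Γ v) ^ (mat x φ v w)) ^ (M' w s) := by
          rw [Finset.prod_comm]
          exact Finset.prod_congr rfl fun w _ => by rw [Finset.prod_zpow]
      _ = 1 := Finset.prod_eq_one fun w hw => by rw [q3 w hw, one_zpow]
  have q5 : q = 1 := by
    refine hom_ext fun v => ?_
    by_cases hv : v ∈ S
    · rw [q4 v hv]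
      rfl
    · rw [q2 v hv]
      rfl
  have q6 : q g = 1 := by rw [q5]; rfl
  have q7 : Abelianization.of g ∈ K' := (QuotientGroup.eq_one_iff _).1 q6
  obtain ⟨u, hu, hug⟩ := q7
  have hc : u⁻¹ * g ∈ commutator (Artin Γ) := by
    rw [← Abelianization.ker_of, MonoidHom.mem_ker, map_mul, map_inv, hug, inv_mul_cancel]
  have hu' : u ∈ ((H : Set (Artin Γ)) * (f.ker : Set (Artin Γ))) := by
    rw [← Subgroup.mul_normal]
    exact hu
  obtain ⟨h, hh, z, hz, hzu⟩ := Set.mem_mul.1 hu'
  refine ⟨h, hh, u⁻¹ * g, hc, ?_⟩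
  have hfz : f z = 1 := hz
  have hfu : f u = f h := by rw [← hzu, map_mul, hfz, mul_one]
  rw [map_mul, map_inv, ← hfu, mul_inv_cancel_left]

end WGTwin
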