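import Pool.Agent.Lib.MP_107652_al.Twin.Spec

/-!
# MP_107652_al, Twin: the information obtained from star representations
-/

set_option autoImplicit false

open Finset

namespace WGTwin

open WGirth

namespace StarExAux

/-- `X` divides `1 - t ^ n` for every integer `n`. -/
theorem dvd_one_sub {R : Type} [CommRing R] {X : R} {t : Rˣ} (ht : (t : R) = 1 + X) (n : ℤ) :
    X ∣ 1 - ((t ^ n : Rˣ) : R) := by
  obtain ⟨q, hq⟩ : ∃ q : R →+* R ⧸ Ideal.span {X}, q = Ideal.Quotient.mk (Ideal.span {X}) :=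
    ⟨_, rfl⟩
  have h1 : Units.map (q : R →* R ⧸ Ideal.span {X}) t = 1 := by
    ext
    show q (t : R) = 1
    rw [ht, map_add, map_one, hq]
    have h2 : (Ideal.Quotient.mk (Ideal.span {X})) X = 0 :=
      Ideal.Quotient.eq_zero_iff_mem.2 (Ideal.subset_span rfl)
    rw [h2, add_zero]
  have h3 : Units.map (q : R →* R ⧸ Ideal.span {X}) (t ^ n) = 1 := by
    rw [map_zpow, h1, one_zpow]
  have h4 : q ((t ^ n : Rˣ) : R) = 1 := congrArg Units.val h3
  have h5 : q (1 - ((t ^ n : Rˣ) : R)) = 0 := by rw [map_sub, h4, map_one, sub_self]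
  rw [hq] at h5
  exact Ideal.mem_span_singleton.1 (Ideal.Quotient.eq_zero_iff_mem.1 h5)

/-- The exponent of the linear part. -/
theorem lin_exp {V : Type} [Fintype V] [DecidableEq V] {Γ : LGraph V}
    {x : V → (Artin Γ →* Multiplicative ℤ)} (hx : IsExp Γ x) {R : Type} [CommRing R] (t : Rˣ)
    (f : Artin Γ →* AR R) (d : V → ℤ) (hd : ∀ v, (f (gen Γ v)).a = t ^ d v) (g : Artin Γ) :
    (f g).a = t ^ (∑ v, d v * Multiplicative.toAdd (x v g)) := by
  have h1 := hx.2 Rˣ (AR.lin.comp f) g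
  have h2 : ∀ v, (AR.lin.comp f) (gen Γ v) ^ (Multiplicative.toAdd (x v g))
      = t ^ (d v * Multiplicative.toAdd (x v g)) := by
    intro v
    show (f (gen Γ v)).a ^ (Multiplicative.toAdd (x v g)) = _
    rw [hd, ← zpow_mul]
  rw [Finset.prod_congr rfl fun v _ => h2 v] at h1
  have h3 : ∀ s : Finset V, ∏ v ∈ s, t ^ (d v * Multiplicative.toAdd (x v g))
      = t ^ (∑ v ∈ s, d v * Multiplicative.toAdd (x v g)) := by
    intro s
    induction s using Finset.induction_on with
    | empty => simp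
    | insert v s hv ih => rw [Finset.prod_insert hv, Finset.sum_insert hv, ih, zpow_add]
  rw [h3] at h1
  exact h1

/-- The exponent of a star representation. -/
theorem sum_nn {V W : Type} [Fintype V] [DecidableEq V] (N : V → W → ℤ) (a b : V) (A : Finset V)
    (hab : a ≠ b) (hb : b ∉ A) (m : V → ℤ) (w : W) :
    ∑ v, (if v = a then (1 : ℤ) else if v = b then -1 else if v ∈ A then m v else 0) * N v w
      = nn N a b A m w := by
  have h1 : ∀ v, (if v = a then (1 : ℤ) else if v = b then -1 else if v ∈ A then m v else 0) * N v w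
      = (if v = a then N v w else 0) - (if v = b then N v w else 0)
        + (if v ∈ A.erase a then m v * N v w else 0) := by
    intro v
    by_cases h1 : v = a
    · have h2 : v ≠ b := by rw [h1]; exact hab
      have h3 : v ∉ A.erase a := by rw [h1]; exact Finset.notMem_erase a A
      rw [if_pos h1, if_pos h1, if_neg h2, if_neg h3]
      ring
    · by_cases h2 : v = b
      · have h3 : v ∉ A.erase a := by
          rw [h2]; exact fun h => hb (Finset.mem_of_mem_erase h)
        rw [if_neg h1, if_pos h2, if_neg h1, if_pos h2, if_neg h3]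
        ring
      · by_cases h3 : v ∈ A
        · have h4 : v ∈ A.erase a := Finset.mem_erase.2 ⟨h1, h3⟩
          rw [if_neg h1, if_neg h2, if_pos h3, if_neg h1, if_neg h2, if_pos h4]
          ring
        · have h4 : v ∉ A.erase a := fun h => h3 (Finset.mem_of_mem_erase h)
          rw [if_neg h1, if_neg h2, if_neg h3, if_neg h1, if_neg h2, if_neg h4]
          ring
  rw [Finset.sum_congr rfl fun v _ => h1 v, Finset.sum_add_distrib, Finset.sum_sub_distrib,
    Finset.sum_ite_eq' Finset.univ a (fun v => N v w),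
    Finset.sum_ite_eq' Finset.univ b (fun v => N v w), if_pos (Finset.mem_univ a),
    if_pos (Finset.mem_univ b)]
  have h2 : ∑ v, (if v ∈ A.erase a then m v * N v w else 0) = ∑ v ∈ A.erase a, m v * N v w := by
    rw [Finset.sum_ite_mem, Finset.univ_inter]
  rw [h2]
  rfl

/-- Images of a closure commute if the images of the generators do. -/
theorem closure_comm {G Q : Type} [Group G] [Group Q] (f : G →* Q) (s : Set G)
    (h : ∀ y ∈ s, ∀ y' ∈ s, f y * f y' = f y' * f y) :
    ∀ g ∈ Subgroup.closure s, ∀ g' ∈ Subgroup.closure s, f g * f g' = f g' * f g := by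
  have h1 : ∀ y ∈ s, ∀ g ∈ Subgroup.closure s, f y * f g = f g * f y := by
    intro y hy
    have h2 : Subgroup.closure s ≤ (Subgroup.centralizer {f y}).comap f := by
      rw [Subgroup.closure_le]
      intro y' hy'
      rw [SetLike.mem_coe, Subgroup.mem_comap, Subgroup.mem_centralizer_iff]
      intro z hz
      rw [Set.mem_singleton_iff.1 hz]
      exact h y hy y' hy'
    intro g hg
    have h3 := h2 hg
    rw [Subgroup.mem_comap, Subgroup.mem_centralizer_iff] at h3
    exact h3 (f y) rfl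
  intro g hg g' hg'
  have h2 : Subgroup.closure s ≤ (Subgroup.centralizer {f g'}).comap f := by
    rw [Subgroup.closure_le]
    intro y hy
    rw [SetLike.mem_coe, Subgroup.mem_comap, Subgroup.mem_centralizer_iff]
    intro z hz
    rw [Set.mem_singleton_iff.1 hz]
    exact (h1 y hy g' hg').symm
  have h3 := h2 hg
  rw [Subgroup.mem_comap, Subgroup.mem_centralizer_iff] at h3
  exact (h3 (f g') rfl).symm

end StarExAux

open StarExAux in
/-- **StarEx**. -/
theorem starEx (h1 : GoodEx) (h2 : RelL) (h3 : CTL) (h4 : ResNil) (h5 : SGen) (h6 : RepP) :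
    StarEx := by
  intro V W _ _ _ _ Γ Λ hΓ hΛ x hx φ p hp a b hab hpab A haA hbA hA m S T1 T2 M' hAS hbS hsum
    hadj hT1 hT2
  by_contra hcon
  obtain ⟨R, iR, iD, X, t, hR⟩ := h1 p hp
  obtain ⟨f, hfa, hf1, g₀, h₀, hne⟩ := h6 p R X t hR V Γ hΓ a b hab hpab A haA hbA hA m
  obtain ⟨d, hd⟩ : ∃ d : V → ℤ, d = fun v =>
      if v = a then (1 : ℤ) else if v = b then -1 else if v ∈ A then m v else 0 := ⟨_, rfl⟩
  have hfa' : ∀ v, (f (gen Γ v)).a = t ^ d v := fun v => by rw [hd]; exact hfa v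
  have hlin := lin_exp hx t f d hfa'
  have hFa : ∀ w, (f (φ (gen Λ w))).a = t ^ nn (mat x φ) a b A m w := by
    intro w
    rw [hlin, hd]
    exact congrArg (fun n => t ^ n) (sum_nn (mat x φ) a b A hab.ne hbA m w)
  -- elements of `T1` and `T2` commute
  have h12 : ∀ v ∈ T1, ∀ u ∈ T2,
      f (φ (gen Λ v)) * f (φ (gen Λ u)) = f (φ (gen Λ u)) * f (φ (gen Λ v)) := by
    intro v hv u hu
    have e1 := gen_rel hΛ (hadj v hv u hu)
    have e2 : (f (φ (gen Λ v)) * f (φ (gen Λ u))) ^ half Λ v u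
        = (f (φ (gen Λ u)) * f (φ (gen Λ v))) ^ half Λ v u := by
      have e3 := congrArg (fun z => f (φ z)) e1
      simpa only [map_pow, map_mul] using e3
    rcases h2 p R X t hR _ _ _ _ _ (hFa v) (hFa u) (hΛ.half_pos (hadj v hv u hu)) e2 with h | h
    · exact h
    · exact absurd ⟨v, hv, u, hu, h⟩ hcon
  obtain ⟨v0, hv0, hv0n⟩ := hT1
  obtain ⟨u0, hu0, hu0n⟩ := hT2
  have hv0a : (f (φ (gen Λ v0))).a ≠ 1 := fun h => hv0n (hR.inf _ ((hFa v0).symm.trans h))
  have hu0a : (f (φ (gen Λ u0))).a ≠ 1 := fun h => hu0n (hR.inf _ ((hFa u0).symm.trans h))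
  have h22 : ∀ u ∈ T2, ∀ u' ∈ T2,
      f (φ (gen Λ u)) * f (φ (gen Λ u')) = f (φ (gen Λ u')) * f (φ (gen Λ u)) := fun u hu u' hu' =>
    h3 R _ _ _ hv0a (h12 v0 hv0 u hu) (h12 v0 hv0 u' hu')
  have h11 : ∀ v ∈ T1, ∀ v' ∈ T1,
      f (φ (gen Λ v)) * f (φ (gen Λ v')) = f (φ (gen Λ v')) * f (φ (gen Λ v)) := fun v hv v' hv' =>
    h3 R _ _ _ hu0a (h12 v hv u0 hu0).symm (h12 v' hv' u0 hu0).symm
  have hall : ∀ w ∈ T1 ∪ T2, ∀ w' ∈ T1 ∪ T2,
      f (φ (gen Λ w)) * f (φ (gen Λ w')) = f (φ (gen Λ w')) * f (φ (gen Λ w)) := by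
    intro w hw w' hw'
    rcases Finset.mem_union.1 hw with hw1 | hw2
    · rcases Finset.mem_union.1 hw' with hw1' | hw2'
      · exact h11 w hw1 w' hw1'
      · exact h12 w hw1 w' hw2'
    · rcases Finset.mem_union.1 hw' with hw1' | hw2'
      · exact (h12 w' hw1' w hw2).symm
      · exact h22 w hw2 w' hw2'
  have hH := closure_comm f {y | ∃ w ∈ T1 ∪ T2, y = φ (gen Λ w)} (by
    rintro y ⟨w, hw, rfl⟩ y' ⟨w', hw', rfl⟩
    exact hall w hw w' hw')
  have hS := h5 V W Γ Λ x hx φ (AR R) f S (T1 ∪ T2) M'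
    (fun v hv => hf1 v (fun h => hv (h ▸ hbS)) (fun h => hv (hAS h))) hsum
  have hX : ∀ g, X ∣ 1 - ((f g).a : R) := by
    intro g
    rw [hlin g]
    exact dvd_one_sub hR.unit _
  exact hne (h4 R X hR.sep (Artin Γ) f
    (Subgroup.closure {y | ∃ w ∈ T1 ∪ T2, y = φ (gen Λ w)}) hX hS hH g₀ h₀)

end WGTwin
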