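import Pool.Agent.Lib.MP_107652_al.Spec

/-!
# MP_107652_al: even Artin groups without adjacent twins are rigid. Statements with proofs

`half Γ v w` is half of the label of the edge `vw` (all labels are even), see `../Defs.lean`.
-/

set_option autoImplicit false

open Finset

namespace WGTwin

open WGirth

/-! ## The affine group of a commutative ring -/

/-- The affine map `z ↦ a z + b` over the ring `R`. -/
@[ext] structure AR (R : Type) [CommRing R] where
  a : Rˣ
  b : R

namespace AR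

variable {R : Type} [CommRing R]

instance : Mul (AR R) := ⟨fun g h => ⟨g.a * h.a, g.b + g.a * h.b⟩⟩
instance : One (AR R) := ⟨⟨1, 0⟩⟩
instance : Inv (AR R) := ⟨fun g => ⟨g.a⁻¹, -((g.a⁻¹ : Rˣ) : R) * g.b⟩⟩

@[simp] theorem mul_a (g h : AR R) : (g * h).a = g.a * h.a := rfl
@[simp] theorem mul_b (g h : AR R) : (g * h).b = g.b + g.a * h.b := rfl
@[simp] theorem one_a : (1 : AR R).a = 1 := rfl
@[simp] theorem one_b : (1 : AR R).b = 0 := rfl
@[simp] theorem inv_a (g : AR R) : (g⁻¹).a = g.a⁻¹ := rfl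
@[simp] theorem inv_b (g : AR R) : (g⁻¹).b = -((g.a⁻¹ : Rˣ) : R) * g.b := rfl

instance : Group (AR R) :=
  Group.ofLeftAxioms
    (fun x y z => by
      ext
      · simp [mul_assoc]
      · simp; ring)
    (fun x => by ext <;> simp)
    (fun x => by ext <;> simp)

/-- the linear part -/
def lin : AR R →* Rˣ where
  toFun := AR.a
  map_one' := rfl
  map_mul' _ _ := rfl

@[simp] theorem lin_apply (g : AR R) : lin g = g.a := rfl

theorem pow_eq (g : AR R) (k : ℕ) :
    g ^ k = ⟨g.a ^ k, (∑ j ∈ Finset.range k, (g.a : R) ^ j) * g.b⟩ := by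
  induction k with
  | zero => ext <;> simp
  | succ k ih =>
    rw [pow_succ, ih]
    ext
    · simp [pow_succ]
    · simp only [mul_b, Finset.sum_range_succ, Units.val_pow_eq_pow_val]
      ring

/-- commuting is determined by the number `(1 - a) b' = (1 - a') b` -/
theorem commute_iff (g h : AR R) :
    g * h = h * g ↔ (1 - (g.a : R)) * h.b = (1 - (h.a : R)) * g.b := by
  constructor
  · intro hc
    have := congrArg AR.b hc
    simp only [mul_b] at this
    linear_combination -this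
  · intro hc
    ext
    · simp [mul_comm]
    · simp only [mul_b]
      linear_combination -hc

end AR

/-- The ring used: a domain of characteristic `p` with `t = 1 + X` a unit of infinite order and no
nonzero element divisible by all powers of `X`. -/
structure Good (p : ℕ) (R : Type) [CommRing R] (X : R) (t : Rˣ) : Prop where
  char : ∀ k : ℕ, (k : R) = 0 ↔ p ∣ k
  unit : (t : R) = 1 + X
  inf : ∀ m : ℤ, t ^ m = 1 → m = 0
  sep : ∀ x : R, (∀ m : ℕ, X ^ m ∣ x) → x = 0

/-- **GoodEx.** Proof. `R = PowerSeries (ZMod p)` (a domain: `Fact p.Prime`), `X = PowerSeries.X`, `t`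
the unit `1 + X` (constant coefficient 1). `char`: `(k : R) = C (k : ZMod p)`, `ZMod.natCast_eq_zero_iff`.
`inf`: it is enough that `t ^ n ≠ 1` for a natural number `n ≥ 1`: write `n = p ^ e * m` with `p ∤ m`; then
`(1 + X) ^ n = (1 + X ^ (p ^ e)) ^ m` has coefficient `m ≠ 0` at `X ^ (p ^ e)`
(`add_pow_char_pow`); or: `(1 + X) ^ n` is the image of a monic polynomial of degree `n` different from
`1`. `sep`: `PowerSeries.X_pow_dvd_iff`. -/
def GoodEx : Prop := ∀ p : ℕ, p.Prime →
  ∃ (R : Type) (_ : CommRing R) (_ : IsDomain R) (X : R) (t : Rˣ), Good p R X t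

/-- **RelL.** Proof. By `AR.pow_eq` both sides have linear part `λ^k`, `λ = t^(n+m)`, and the
difference of the translation parts is `(∑ j < k, λ^j) * ((g h).b - (h g).b) = 0`. If the second factor
is `0` then `g h = h g`. Otherwise `∑ j < k, λ^j = 0`. If `λ = 1` this says `(k : R) = 0`, so `p ∣ k`, and
`n + m = 0` by `Good.inf`. If `λ ≠ 1` multiply by `λ - 1` (`geom_sum_mul`): `λ^k = 1`, so
`(n + m) * k = 0` by `Good.inf`, so `n + m = 0` and `λ = 1`: contradiction. -/
def RelL : Prop := ∀ (p : ℕ) (R : Type) [CommRing R] [IsDomain R] (X : R) (t : Rˣ), Good p R X t →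
  ∀ (g h : AR R) (n m : ℤ) (k : ℕ), g.a = t ^ n → h.a = t ^ m → 1 ≤ k →
    (g * h) ^ k = (h * g) ^ k → g * h = h * g ∨ (n + m = 0 ∧ p ∣ k)

/-- **CTL.** Elements with nontrivial linear part have abelian centralizers. Proof. `AR.commute_iff`
and cancel `1 - g.a`. -/
def CTL : Prop := ∀ (R : Type) [CommRing R] [IsDomain R] (g h k : AR R), g.a ≠ 1 →
  g * h = h * g → g * k = k * g → h * k = k * h

/-- **ResNil.** Proof. Put `D g h = (1 - (f g).a) * (f h).b - (1 - (f h).a) * (f g).b`. By induction on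
`m`, `X ^ m ∣ D g h` for all `g h`. `m = 0` is trivial. Step: every `c ∈ commutator G` has `(f c).a = 1` and
`X ^ m ∣ (f c).b` (closure induction: for a commutator `c = ⁅g, h⁆` we have `c * (h * g) = g * h`, so
`(f c).b = (f g * f h).b - (f h * f g).b = - D g h`; elements with linear part `1` and translation part
divisible by `X^m` form a subgroup). Write `f g = f h * f c`, `f g' = f h' * f c'`. Then
`(f g).a = (f h).a`, `(f g).b = (f h).b + (f h).a * (f c).b`, so
`D g g' = D h h' + (1 - (f h).a) * (f h').a * (f c').b - (1 - (f h').a) * (f h).a * (f c).b`, where `D h h' = 0`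
(`AR.commute_iff`) and the other terms are divisible by `X^(m+1)`. Finally `D g g' = 0` by `sep`, and
`AR.commute_iff`. -/
def ResNil : Prop := ∀ (R : Type) [CommRing R] (X : R), (∀ x : R, (∀ m : ℕ, X ^ m ∣ x) → x = 0) →
  ∀ (G : Type) [Group G] (f : G →* AR R) (H : Subgroup G), (∀ g, X ∣ 1 - ((f g).a : R)) →
    (∀ g, ∃ h ∈ H, ∃ c ∈ commutator G, f g = f h * f c) →
    (∀ h ∈ H, ∀ h' ∈ H, f h * f h' = f h' * f h) → ∀ g g' : G, f g * f g' = f g' * f g

/-! ## Group part -/

section defs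

variable {V W : Type} [Fintype V] [Fintype W] [DecidableEq V] [DecidableEq W]

/-- exponent sums -/
def IsExp (Γ : LGraph V) (x : V → (Artin Γ →* Multiplicative ℤ)) : Prop :=
  (∀ i j, x i (gen Γ j) = if i = j then Multiplicative.ofAdd 1 else 1) ∧
  ∀ (A : Type) [CommGroup A] (f : Artin Γ →* A) (g : Artin Γ),
      f g = ∏ i, f (gen Γ i) ^ (Multiplicative.toAdd (x i g))

/-- the matrix of a homomorphism on the abelianizations: `mat y φ i v` is the exponent sum of `i` in
the image of the generator `v` -/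
def mat {Γ : LGraph V} {Λ : LGraph W} (y : W → (Artin Λ →* Multiplicative ℤ))
    (φ : Artin Γ →* Artin Λ) (i : W) (v : V) : ℤ := Multiplicative.toAdd (y i (φ (gen Γ v)))

/-- the exponent function of a star representation -/
def nn (N : V → W → ℤ) (a b : V) (A : Finset V) (m : V → ℤ) (w : W) : ℤ :=
  N a w - N b w + ∑ x ∈ A.erase a, m x * N x w

/-- The information obtained from star representations of `Artin Γ` in characteristic `p`, pulled
back to `Artin Λ`. -/
def StarP (Γ : LGraph V) (Λ : LGraph W) (N : V → W → ℤ) : Prop :=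
  ∀ p : ℕ, p.Prime → ∀ a b : V, Γ.graph.Adj a b → p ∣ half Γ a b →
  ∀ A : Finset V, a ∈ A → b ∉ A → (∀ x ∈ A, ∀ y ∈ A, ¬ Γ.graph.Adj x y) →
  ∀ (m : V → ℤ) (S : Finset V) (T1 T2 : Finset W) (M' : W → V → ℤ), A ⊆ S → b ∈ S →
  (∀ s ∈ S, ∀ s' ∈ S, ∑ w ∈ T1 ∪ T2, N s' w * M' w s = if s' = s then 1 else 0) →
  (∀ v ∈ T1, ∀ u ∈ T2, Λ.graph.Adj v u) →
  (∃ v ∈ T1, nn N a b A m v ≠ 0) → (∃ u ∈ T2, nn N a b A m u ≠ 0) →
  ∃ v ∈ T1, ∃ u ∈ T2, nn N a b A m v + nn N a b A m u = 0 ∧ p ∣ half Λ v u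

/-- The matrices of an isomorphism and its inverse. -/
structure Pre (Γ : LGraph V) (Λ : LGraph W) (M : W → V → ℤ) (N : V → W → ℤ) : Prop where
  nm : ∀ v w, ∑ i, N v i * M i w = if v = w then 1 else 0
  mn : ∀ i j, ∑ v, M i v * N v j = if i = j then 1 else 0
  heisM : ∀ a b, Γ.graph.Adj a b → ∀ i j, Λ.graph.Adj i j →
    (half Λ i j : ℤ) ∣ half Γ a b * (M i a * M j b - M j a * M i b)
  heisM0 : ∀ a b, Γ.graph.Adj a b → ∀ i j, i ≠ j → ¬ Λ.graph.Adj i j →
    M i a * M j b - M j a * M i b = 0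
  heisN : ∀ i j, Λ.graph.Adj i j → ∀ a b, Γ.graph.Adj a b →
    (half Γ a b : ℤ) ∣ half Λ i j * (N a i * N b j - N b i * N a j)
  heisN0 : ∀ i j, Λ.graph.Adj i j → ∀ a b, a ≠ b → ¬ Γ.graph.Adj a b →
    N a i * N b j - N b i * N a j = 0
  starN : StarP Γ Λ N
  starM : StarP Λ Γ M

end defs

/-- **HeisGen.** Proof. As `WGirth.HeisDiv` (file `../HeisDiv.lean`, reuse the group
`WGirth.HeisDiv.Heis n` over `ZMod n`): `exists_hom` with `gen i ↦ xx`, `gen j ↦ yy`, the other generators
`↦ 1`. For an edge `{i, j}` of label `2k`, `n ∣ k` gives `(xx * yy)^k = (yy * xx)^k` because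
`xx * yy = (yy * xx) * zz`, `zz` central, `zz^k = 1`. (If `i`, `j` are not adjacent there is nothing to
check for that pair.) For any two elements of the Heisenberg group
`g * h = (h * g) * zz^c` with `c = g.p * h.q - h.p * g.q` (as `⟨0, 0, c⟩`, central). So
`(g h)^K = (h g)^K` gives `K * c = 0` in `ZMod n`, with `c` the class of the determinant of the exponent
sums. -/
def HeisGen : Prop := ∀ (W : Type) [Fintype W] [DecidableEq W] (Λ : LGraph W), IsEven Λ →
  ∀ x : W → (Artin Λ →* Multiplicative ℤ),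
    (∀ i j, x i (gen Λ j) = if i = j then Multiplicative.ofAdd 1 else 1) →
    ∀ (i j : W) (n : ℕ), i ≠ j → (Λ.graph.Adj i j → n ∣ half Λ i j) →
    ∀ (g h : Artin Λ) (K : ℕ), (g * h) ^ K = (h * g) ^ K →
      (n : ℤ) ∣ K * (Multiplicative.toAdd (x i g) * Multiplicative.toAdd (x j h) -
        Multiplicative.toAdd (x j g) * Multiplicative.toAdd (x i h))

/-- **SGen.** Proof. Let `G = Artin Γ`, `K' : Subgroup (Abelianization G)` the image of `H ⊔ f.ker` under
`Abelianization.of`, and `q : G →* Abelianization G ⧸ K'` (a commutative group). `q` is trivial on `H` and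
on `f.ker`. For `v ∉ S`, `q (gen v) = 1`. For `w ∈ T`, `IsExp` for `q` and `g = φ (gen w)` gives
`1 = ∏ v, q (gen v) ^ N v w`, where only `v ∈ S` matter. For `s ∈ S` raise to the power `M' w s` and
multiply over `w ∈ T`: `1 = ∏ v ∈ S, q (gen v) ^ (∑ w ∈ T, N v w * M' w s) = q (gen s)`. So `q = 1`
(`hom_ext`). For `g : G` this gives `u ∈ H ⊔ f.ker` with `of g = of u`, so `u⁻¹ * g ∈ commutator G`; write
`u = h * z`, `h ∈ H`, `f z = 1` (`Subgroup.mem_sup` / `Subgroup.mul_normal`). Then `f g = f h * f c`. -/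
def SGen : Prop := ∀ (V W : Type) [Fintype V] [Fintype W] [DecidableEq V] [DecidableEq W]
  (Γ : LGraph V) (Λ : LGraph W) (x : V → (Artin Γ →* Multiplicative ℤ)), IsExp Γ x →
  ∀ (φ : Artin Λ →* Artin Γ) (Q : Type) [Group Q] (f : Artin Γ →* Q) (S : Finset V) (T : Finset W)
    (M' : W → V → ℤ), (∀ v, v ∉ S → f (gen Γ v) = 1) →
    (∀ s ∈ S, ∀ s' ∈ S, ∑ w ∈ T, mat x φ s' w * M' w s = if s' = s then 1 else 0) →
    ∀ g : Artin Γ, ∃ h ∈ Subgroup.closure {y | ∃ w ∈ T, y = φ (gen Λ w)},
      ∃ c ∈ commutator (Artin Γ), f g = f h * f c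

/-- **RepP.** Proof. `exists_hom` with `gen a ↦ ⟨t, 0⟩`, `gen b ↦ ⟨t⁻¹, 1 - t⁻¹⟩`, `gen v ↦ ⟨t^(m v), 1 - t^(m v)⟩`
for `v ∈ A.erase a`, other generators `↦ 1 = ⟨t^0, 0⟩`. Relations: a pair with a trivial image; a pair of
elements of the form `⟨u, 1 - u⟩` commutes (`AR.commute_iff`); `a` and `v ∈ A` are not adjacent; for the pair
`a, b` (in both orders) the products have linear part `1`, so their `k`-th powers are
`⟨1, k * _⟩ = 1` because `p ∣ k` (`Good.char`). The images of `a` and `b` do not commute: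
`(1 - t) * (1 - t⁻¹) ≠ 0` (`Good.inf`, domain). -/
def RepP : Prop := ∀ (p : ℕ) (R : Type) [CommRing R] [IsDomain R] (X : R) (t : Rˣ), Good p R X t →
  ∀ (V : Type) [DecidableEq V] (Γ : LGraph V), IsEven Γ →
  ∀ a b : V, Γ.graph.Adj a b → p ∣ half Γ a b →
  ∀ A : Finset V, a ∈ A → b ∉ A → (∀ x ∈ A, ∀ y ∈ A, ¬ Γ.graph.Adj x y) → ∀ m : V → ℤ,
    ∃ f : Artin Γ →* AR R,
      (∀ v, (f (gen Γ v)).a = t ^ (if v = a then 1 else if v = b then -1 else if v ∈ A then m v else 0)) ∧
      (∀ v, v ≠ b → v ∉ A → f (gen Γ v) = 1) ∧ ∃ g h, f g * f h ≠ f h * f g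

/-- **StarEx.** Proof. Take `R, X, t` from GoodEx and `f` from RepP. Let `F w = f (φ (gen Λ w))`. (1) IsExp
for `AR.lin.comp f` gives `(F w).a = t ^ (nn N a b A m w)` with `N = mat x φ` (the exponent is
`∑ v, d v * N v w`, `d a = 1`, `d b = -1`, `d v = m v` on `A.erase a`, `0` otherwise). (2) For all `g`,
`(f g).a` is a power of `t` (IsExp for `lin.comp f`), and `X ∣ 1 - t^n` for every integer `n`
(`t = 1 + X`). (3) Suppose that the claim is false. For `v ∈ T1`, `u ∈ T2` the relation `gen_rel` of `Λ` and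
RelL show that `F v`, `F u` commute. With `v0` (`(F v0).a ≠ 1` by `Good.inf`) CTL shows that all `F u`,
`u ∈ T2`, commute; with `u0` all `F v`, `v ∈ T1`, commute. So all `F w`, `w ∈ T1 ∪ T2`, commute with each
other, so `f h * f h' = f h' * f h` on the closure `H` of the `φ (gen w)` (closure induction; e.g.
`Subgroup.closure_induction₂` or `Subgroup.closureCommGroupOfComm`). (4) SGen and ResNil: `f` has commutative
image, a contradiction to RepP. -/
def StarEx : Prop := ∀ (V W : Type) [Fintype V] [Fintype W] [DecidableEq V] [DecidableEq W]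
  (Γ : LGraph V) (Λ : LGraph W), IsEven Γ → IsEven Λ →
  ∀ x : V → (Artin Γ →* Multiplicative ℤ), IsExp Γ x → ∀ φ : Artin Λ →* Artin Γ,
    StarP Γ Λ (mat x φ)

/-- **PreEx.** Proof. `x`, `y` from `WGirth.expHom` (file `../ExpHom.lean`) for `Γ`, `Λ`;
`M = mat y e`, `N = mat x e.symm`. `nm`, `mn`: as `inv_aux`, `sumN_aux` in `../PairEx.lean`. `heisM`,
`heisM0`: HeisGen for `g = e (gen a)`, `h = e (gen b)`, `K = half Γ a b` (`gen_rel` mapped by `e`), with
`n = half Λ i j`, respectively all `n` (an integer divisible by every `n` is zero; cancel `K ≥ 1`).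
The other direction in the same way. `starN`, `starM`: StarEx. -/
def PreEx : Prop := ∀ (V W : Type) [Fintype V] [Fintype W] [DecidableEq V] [DecidableEq W]
  (Γ : LGraph V) (Λ : LGraph W), IsEven Γ → IsEven Λ → Nonempty (Artin Γ ≃* Artin Λ) →
  ∃ M N, Pre Γ Λ M N

/-! ## Linear algebra: domination -/

/-- `w` dominates `v`: every neighbour of `v` is `w` or a neighbour of `w` -/
def Dom {V : Type} (Γ : LGraph V) (v w : V) : Prop :=
  ∀ j, Γ.graph.Adj v j → j = w ∨ Γ.graph.Adj j w

/-- **DegLe.** Proof. The linear map `({w // w = v ∨ Adj v w} → ℚ) → ({j // j = i ∨ Adj i j} → ℚ)`,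
`c ↦ (∑ w, M j w * c w)_j`, is injective: let `c` be in the kernel and `y j = ∑ w, M j w * c w` for all
`j : W`. For `j ≠ i` not adjacent to `i`, `heisM0` (edge `v w`, or trivially for `w = v`) gives
`M i v * y j = M j v * y i = 0`, so `y j = 0`. So `y = 0` and `c = 0` by `nm` (extend `c` by zero).
Compare dimensions. -/
def DegLe : Prop := ∀ (V W : Type) [Fintype V] [Fintype W] [DecidableEq V] [DecidableEq W]
  (Γ : LGraph V) (Λ : LGraph W) (M : W → V → ℤ) (N : V → W → ℤ),
  (∀ v w, ∑ i, N v i * M i w = if v = w then 1 else 0) →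
  (∀ a b, Γ.graph.Adj a b → ∀ i j, i ≠ j → ¬ Λ.graph.Adj i j →
    M i a * M j b - M j a * M i b = 0) →
  ∀ v i, M i v ≠ 0 →
    Nat.card {w // w = v ∨ Γ.graph.Adj v w} ≤ Nat.card {j // j = i ∨ Λ.graph.Adj i j}

/-- **PermEx.** Proof. `card V = card W` (`WGirth.cardEq` in `../LemB.lean`), take any `e : V ≃ W`; the square
matrix `fun v w => M (e v) w` has a left inverse, so its determinant is not zero; some term of
`Matrix.det_apply` is not zero. -/
def PermEx : Prop := ∀ (V W : Type) [Fintype V] [Fintype W] [DecidableEq V] [DecidableEq W]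
  (M : W → V → ℤ) (N : V → W → ℤ), (∀ v w, ∑ i, N v i * M i w = if v = w then 1 else 0) →
  (∀ i j, ∑ v, M i v * N v j = if i = j then 1 else 0) → ∃ σ : V ≃ W, ∀ v, M (σ v) v ≠ 0

/-- **DomM.** Proof. Write `d v` for the number `Nat.card {w // w = v ∨ Adj v w}`. By DegLe
`d v ≤ d (σ v)` for all `v`; by PermEx and DegLe for `N` (roles exchanged) there is `τ : W ≃ V` with
`d i ≤ d (τ i)`; so the sums of all `d` over `V` and over `W` are equal and `d v = d (σ v)` for all `v`.
Fix `v`, `i = σ v`, and let `j` be adjacent to `i`. The injective map in the proof of DegLe is now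
surjective (equal dimensions): there is `c : V → ℚ` supported on `{v} ∪ lk v` with `y = ∑ w, c w * M · w` equal
to the basis vector of `j` on `{i} ∪ lk i`. As `y i = 0`, `y l = 0` for the other `l` (see DegLe). So `y` is
the basis vector of `j`. For `l ≠ j` not adjacent to `j`, `heisM0` for rows `l, j` and columns `v, w` gives
`M l v * y j = M j v * y l = 0`, so `M l v = 0`. -/
def DomM : Prop := ∀ (V W : Type) [Fintype V] [Fintype W] [DecidableEq V] [DecidableEq W]
  (Γ : LGraph V) (Λ : LGraph W) (M : W → V → ℤ) (N : V → W → ℤ), Pre Γ Λ M N →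
  ∀ σ : V ≃ W, (∀ v, M (σ v) v ≠ 0) →
  (∀ v, Nat.card {w // w = v ∨ Γ.graph.Adj v w} = Nat.card {j // j = σ v ∨ Λ.graph.Adj (σ v) j}) ∧
  ∀ v l, M l v ≠ 0 → Dom Λ (σ v) l

/-- **DomTr.** Proof. Reflexive: trivial. Transitive: let `j` be adjacent to `u`. Then `j = v` or `j` is
adjacent to `v`. In the second case use `Dom v w`. If `j = v` then `u` is adjacent to `v`, so `u = w` or `u` is
adjacent to `w`. If `u = w`, then `j = v` is adjacent to `w`: done. If `u` is adjacent to `w` then
`w = v = j` or `w` is adjacent to `v = j` (by `Dom u v`). -/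
def DomTr : Prop := ∀ (V : Type) (Γ : LGraph V), (∀ v, Dom Γ v v) ∧
  ∀ u v w, Dom Γ u v → Dom Γ v w → Dom Γ u w

/-- **DomN.** Proof. Fix `l`, `U = {u : W | Dom Λ l u}` (contains `l`). For `v` with `σ v ∈ U`,
`M u v ≠ 0` implies `Dom Λ (σ v) u`, so `u ∈ U` (DomTr). The linear map `({v // σ v ∈ U} → ℚ) → (U → ℚ)` given by
`M` is injective (a kernel element gives a combination of the columns of `M` which vanishes everywhere; apply
`N`) and the dimensions are equal, so the basis vector of `l` is `∑ v, c v * M · v` with `c` supported on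
`σ v ∈ U`. Apply `N`: `c v = N v l`. -/
def DomN : Prop := ∀ (V W : Type) [Fintype V] [Fintype W] [DecidableEq V] [DecidableEq W]
  (Λ : LGraph W) (M : W → V → ℤ) (N : V → W → ℤ),
  (∀ v w, ∑ i, N v i * M i w = if v = w then 1 else 0) →
  ∀ σ : V ≃ W, (∀ v l, M l v ≠ 0 → Dom Λ (σ v) l) → ∀ v l, N v l ≠ 0 → Dom Λ l (σ v)

/-- **AdjIso.** Proof. (→) Let `a, b` be adjacent, `i = σ a`, `j = σ b`, and suppose that `i, j` are not
adjacent. `heisM0`: `M i a * M j b = M j a * M i b`, and the left side is not zero, so `M j a ≠ 0`,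
`M i b ≠ 0`, so `Dom i j` and `Dom j i`. Let `c l = M i b * M l a - M i a * M l b`. By `nm`
`∑ l, N a l * c l = M i b ≠ 0`, so some `l` has `N a l ≠ 0` and `c l ≠ 0`. Then `Dom l i`, and `M l a ≠ 0` or
`M l b ≠ 0`, so `Dom i l` or `Dom j l`, in any case `Dom i l` (DomTr). `l ≠ i` because `c i = 0`. If `l` were
adjacent to `i`, then by `Dom i j`, `l = j` (excluded) or `l` is adjacent to `j`; then by `Dom l i`, `j = i`
(excluded) or `j` is adjacent to `i` (excluded). So `l` is not adjacent to `i` and `heisM0` gives `c l = 0`: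
contradiction. (←) `σ` maps the neighbours of `a` injectively into those of `σ a` and the numbers are equal by
the first hypothesis. -/
def AdjIso : Prop := ∀ (V W : Type) [Fintype V] [Fintype W] [DecidableEq V] [DecidableEq W]
  (Γ : LGraph V) (Λ : LGraph W) (M : W → V → ℤ) (N : V → W → ℤ), Pre Γ Λ M N →
  ∀ σ : V ≃ W, (∀ v, M (σ v) v ≠ 0) →
  (∀ v, Nat.card {w // w = v ∨ Γ.graph.Adj v w} = Nat.card {j // j = σ v ∨ Λ.graph.Adj (σ v) j}) →
  (∀ v l, M l v ≠ 0 → Dom Λ (σ v) l) → (∀ v l, N v l ≠ 0 → Dom Λ l (σ v)) →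
  ∀ a b, Γ.graph.Adj a b ↔ Λ.graph.Adj (σ a) (σ b)

/-! ## Both graphs on one vertex set -/

/-- the labelled graph `Λ` pulled back along `σ : V ≃ W` -/
def pull {V W : Type} (Λ : LGraph W) (σ : V ≃ W) : LGraph V where
  graph := Λ.graph.comap σ
  label := fun e => Λ.label (e.map σ)
  two_le := by
    intro e
    induction e using Sym2.ind with
    | _ x y =>
      intro h
      rw [SimpleGraph.mem_edgeSet, SimpleGraph.comap_adj] at h
      rw [Sym2.map_mk]
      exact Λ.two_le _ ((SimpleGraph.mem_edgeSet _).mpr h)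

/-- Two labelled graphs on `V` with the same underlying graph, with the matrices of an isomorphism,
block triangular for domination. -/
structure TD {V : Type} [Fintype V] [DecidableEq V] (Γ Λ : LGraph V) (M N : V → V → ℤ) : Prop where
  pre : Pre Γ Λ M N
  adj : ∀ a b, Γ.graph.Adj a b ↔ Λ.graph.Adj a b
  domM : ∀ v l, M l v ≠ 0 → Dom Γ v l
  domN : ∀ v l, N v l ≠ 0 → Dom Γ l v

/-- **TDsymm.** Proof. Immediate (`Dom Γ` and `Dom Λ` agree by `adj`). -/
def TDsymm : Prop := ∀ (V : Type) [Fintype V] [DecidableEq V] (Γ Λ : LGraph V) (M N : V → V → ℤ),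
  TD Γ Λ M N → TD Λ Γ N M

/-- **Transport.** Proof. `M' v' v = M (σ v') v`, `N' v v' = N v (σ v')` with `σ` from PermEx, DomM, DomN,
AdjIso, and `half (pull Λ σ) v w = half Λ (σ v) (σ w)`. Everything is a reindexing along `σ`:
sums over `W` become sums over `V` (`Equiv.sum_comp`); for `starN` apply the statement for `Λ` to
`T1.map σ`, `T2.map σ` and `fun w s => M' (σ.symm w) s` (`Finset.map_union`, `Finset.sum_map`); for `starM` apply it
to `A.map σ`, `S.map σ`, `m ∘ σ.symm`, and `M'` with the second argument composed with `σ.symm`. -/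
def Transport : Prop := ∀ (V W : Type) [Fintype V] [Fintype W] [DecidableEq V] [DecidableEq W]
  (Γ : LGraph V) (Λ : LGraph W) (M : W → V → ℤ) (N : V → W → ℤ), Pre Γ Λ M N →
  ∃ (σ : V ≃ W) (M' N' : V → V → ℤ), TD Γ (pull Λ σ) M' N'

/-! ## Twin classes -/

/-- twins: each dominates the other -/
def Tw {V : Type} (Γ : LGraph V) (v w : V) : Prop := Dom Γ v w ∧ Dom Γ w v

/-- adjacent twins have no other neighbours -/
def TwinsIsolated {V : Type} (Γ : LGraph V) : Prop :=
  ∀ a b, Γ.graph.Adj a b → Tw Γ a b → ∀ c, Γ.graph.Adj a c → c = b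

open Classical in
/-- the twin class of `v` -/
noncomputable def cls {V : Type} [Fintype V] (Γ : LGraph V) (v : V) : Finset V :=
  Finset.univ.filter (fun w => Tw Γ w v)

/-- **ClassInv.** Proof. `∑ w, N x w * M w y = δ` (`nm`) and the terms with `w ∉ cls a` vanish:
`N x w ≠ 0` gives `Dom w x`, `M w y ≠ 0` gives `Dom y w`, so `w` is a twin of `a` (DomTr). The second in the
same way from `mn`. -/
def ClassInv : Prop := ∀ (V : Type) [Fintype V] [DecidableEq V] (Γ Λ : LGraph V) (M N : V → V → ℤ),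
  TD Γ Λ M N → ∀ a x y, x ∈ cls Γ a → y ∈ cls Γ a →
    (∑ w ∈ cls Γ a, N x w * M w y = if x = y then 1 else 0) ∧
    (∑ w ∈ cls Γ a, M x w * N w y = if x = y then 1 else 0)

/-- **UnitCore.** Let `A = cls a`, `B = cls b`; `A` is independent with a second element, `a ~ b`, `p ∣ k_ab`.
Proof. (i) Every `x ∈ A` is adjacent to every `w ∈ B`: `Dom a x` gives `b = x` (excluded: `b ∈ A` would be
adjacent to `a`) or `b ~ x`; `Dom b w` gives `x = w` (excluded: then `b ∈ A`) or `x ~ w`. (ii) `N x w = 0` for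
`x ∈ A`, `w ∈ B`: otherwise `Dom w x`, but an element `a' ≠ x` of `A` is adjacent to `w`, and neither equal nor
adjacent to `x`. (iii) Use `starN` with `S = A ∪ B`, `T1 = A`, `T2 = B`,
`M' w s = M w s` if `w, s ∈ A` or `w, s ∈ B`, `M' w s = 0` for `w ∈ A`, `s ∈ B`, and
`M' w s = - ∑ z ∈ B, M w z * ∑ v ∈ A, N z v * M v s` for `w ∈ B`, `s ∈ A`: the sum condition follows from
ClassInv and (ii). (iv) `nn u = - N b u` for `u ∈ B` (by (ii)); some `u` has `N b u ≠ 0` (ClassInv).
(v) Let `idx : V → ℕ` be injective with values `≥ 1`. For a natural number `z` take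
`m x = z ^ idx x`. Then `nn v` is the value at `z` of the polynomial
`P v = (N a v - N b v) + ∑ x ∈ A.erase a, N x v * X ^ idx x`. Take `a' ∈ A`, `a' ≠ a`; some `v0 ∈ A` has
`N a' v0 ≠ 0` (ClassInv), so `P v0 ≠ 0` and `nn v0 ≠ 0` for all `z` outside a finite set. For each of these
`z`, `starN` gives `v ∈ A`, `u ∈ B` with `nn v = N b u` and `p ∣ k'_vu`; by the pigeonhole principle one pair
`v, u` occurs for infinitely many `z`, so the polynomial `P v - N b u` is zero, and its
coefficient at `idx x` is `N x v = 0` for `x ∈ A.erase a`. -/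
def UnitCore : Prop := ∀ (V : Type) [Fintype V] [DecidableEq V] (Γ Λ : LGraph V) (M N : V → V → ℤ),
  TD Γ Λ M N → ∀ (p : ℕ) (a b : V), p.Prime → Γ.graph.Adj a b → p ∣ half Γ a b →
  (∀ x ∈ cls Γ a, ∀ y ∈ cls Γ a, ¬ Γ.graph.Adj x y) → (∃ x ∈ cls Γ a, x ≠ a) →
  ∃ v ∈ cls Γ a, ∃ u ∈ cls Γ b, Γ.graph.Adj v u ∧ p ∣ half Λ v u ∧
    ∀ x ∈ cls Γ a, x ≠ a → N x v = 0

/-- `a` has a heavy edge and no adjacent twin -/
def Heavy {V : Type} (Γ : LGraph V) (a : V) : Prop :=
  (∀ x, Tw Γ x a → ¬ Γ.graph.Adj x a) ∧ ∃ b, Γ.graph.Adj a b ∧ 2 ≤ half Γ a b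

/-- **UnitCol.** Proof. First, twins: a class containing two adjacent vertices is a clique, so by the
hypothesis on `a` all pairs in `cls a` are not adjacent. Let `b ~ a`, `half Γ a b ≥ 2`, `p` a prime divisor
(of `half Γ a b`). If `cls a` has a second element: UnitCore. (`half Λ v u ≥ 1` and `p ∣ half Λ v u` give
`≥ 2`; adjacency for `Λ` by `TD.adj`; `half_pos` needs `IsEven Λ`.) If `cls a = {a}`, take `v = a`; the
last claim is empty and it remains to find `u ~ a` with `half Λ a u ≥ 2`. If `cls b` has a second element: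
`cls b` is independent (two adjacent elements: then `b` has an adjacent twin `b'`, so by TwinsIsolated the only
neighbour of `b` is `b'`, so `a = b'` is a twin of `b`, `cls a` has two elements: contradiction), and
UnitCore for `(b, a)` gives `v ∈ cls b`, `u ∈ cls a = {a}` with `p ∣ half Λ v a`. If `cls b = {b}`: ClassInv gives
`N a a * M a a = 1`, `N b b * M b b = 1`; `N b a * N a b = 0` (otherwise `a`, `b` are twins), and
`heisN` gives `half Γ a b ∣ half Λ a b * (± 1)`. -/
def UnitCol : Prop := ∀ (V : Type) [Fintype V] [DecidableEq V] (Γ Λ : LGraph V) (M N : V → V → ℤ),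
  IsEven Γ → IsEven Λ → TD Γ Λ M N → TwinsIsolated Γ → ∀ a, Heavy Γ a →
  ∃ v, Tw Γ v a ∧ Heavy Λ v ∧ ∀ x, Tw Γ x a → x ≠ a → N x v = 0

/-- **UnitSym.** Proof. By ClassInv, for `w ∈ cls a`, `δ_wv = ∑ x ∈ cls a, M w x * N x v = M w a * N a v`. -/
def UnitSym : Prop := ∀ (V : Type) [Fintype V] [DecidableEq V] (Γ Λ : LGraph V) (M N : V → V → ℤ),
  TD Γ Λ M N → ∀ a v, Tw Γ v a → (∀ x, Tw Γ x a → x ≠ a → N x v = 0) →
  M v a * N a v = 1 ∧ ∀ w, Tw Γ w a → w ≠ v → M w a = 0

/-- **PiEx.** A permutation which matches the heavy vertices.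
Proof. Let `R a v` be `Tw v a ∧ ∀ x, Tw x a → x ≠ a → N x v = 0`. By UnitSym for `TD` and for `TDsymm`, `R a v` is
equivalent to `Tw v a ∧ ∀ w, Tw w a → w ≠ v → M w a = 0`, and then `N a v` and `M v a` are `± 1`; so `R a v`,
`R a v'` imply `v = v'`, and `R a v`, `R a' v` imply `a = a'`. UnitCol for `TD Γ Λ M N` and for
`TD Λ Γ N M` (TwinsIsolated passes to `Λ` because the graphs agree) show that `R` is a bijection between
the `Γ`-heavy and the `Λ`-heavy vertices, inside twin classes. Extend it to a permutation of every twin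
class: for each class use `Equiv.extendSubtype` on the (finite) subtype of its elements, and put the classes
together with `Equiv.ofFiberEquiv` (or `Equiv.sigmaFiberEquiv` and `Equiv.sigmaCongrRight`) for the
quotient map of the setoid `Tw`. -/
def PiEx : Prop := ∀ (V : Type) [Fintype V] [DecidableEq V] (Γ Λ : LGraph V) (M N : V → V → ℤ),
  IsEven Γ → IsEven Λ → TD Γ Λ M N → TwinsIsolated Γ →
  ∃ π : Equiv.Perm V, (∀ a, Tw Γ (π a) a) ∧ (∀ a, Heavy Γ a ↔ Heavy Λ (π a)) ∧
    ∀ a, Heavy Γ a → M (π a) a * N a (π a) = 1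

/-- **LabelEq.** Proof. Let `a ~ b`. Case 1: `a`, `b` are twins. By TwinsIsolated (for `(a,b)` and `(b,a)`)
the only neighbour of `a` is `b` and the only neighbour of `b` is `a`, so `cls a = {a, b}` (a twin `x` of `a`
satisfies `b = x` or `b ~ x`), and `π` preserves `{a, b}`. The `2 × 2` blocks of `N` and `M` are inverse
(ClassInv), so their determinants are `± 1`, and `heisM`, `heisN` give `k'_ab ∣ k_ab` and `k_ab ∣ k'_ab`.
Case 2: not twins. `π a ~ π b`: as in UnitCore (i) (`Dom a (π a)` gives `b = π a`, excluded since then `b` is a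
twin of `a`, or `b ~ π a`; and so on). `a` has no adjacent twin `x`: its only neighbour would be `x`, so
`b = x`; the same for `b`, and for `π a`, `π b` (same classes). If `a` is not heavy then all `k_ab = 1`, and
`π a` is not `Λ`-heavy, so `k'_{πa πb} = 1`. The same if `b` is not heavy. If both are heavy:
`M (π a) a`, `M (π b) b`, `N a (π a)`, `N b (π b)` are `± 1`, and `M (π b) a * M (π a) b = 0`,
`N b (π a) * N a (π b) = 0` (otherwise `Dom a b` and `Dom b a`, so `a`, `b` are twins). `heisM` for the rows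
`π a, π b` and columns `a, b`, and `heisN`: each half label divides the other. -/
def LabelEq : Prop := ∀ (V : Type) [Fintype V] [DecidableEq V] (Γ Λ : LGraph V) (M N : V → V → ℤ),
  IsEven Γ → IsEven Λ → TD Γ Λ M N → TwinsIsolated Γ → ∀ π : Equiv.Perm V, (∀ a, Tw Γ (π a) a) →
  (∀ a, Heavy Γ a ↔ Heavy Λ (π a)) → (∀ a, Heavy Γ a → M (π a) a * N a (π a) = 1) →
  ∀ a b, Γ.graph.Adj a b → Λ.graph.Adj (π a) (π b) ∧ half Λ (π a) (π b) = half Γ a b

/-- **WgIso.** Proof. Map cycles along the isomorphism (`SimpleGraph.Walk.map`, `Walk.map_isCycle_of_injective`,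
`Walk.length_map`, `Walk.edges_map`, `List.countP_map`); the weight does not change because the labels of edges
agree (every edge of a walk is in the edge set). Both inequalities by symmetry. -/
def WgIso : Prop := ∀ (V W : Type) (Γ : LGraph V) (Λ : LGraph W) (π : V ≃ W),
  (∀ a b, Γ.graph.Adj a b ↔ Λ.graph.Adj (π a) (π b)) →
  (∀ a b, Γ.graph.Adj a b → Λ.label s(π a, π b) = Γ.label s(a, b)) → wgirth Γ = wgirth Λ

/-- **Rigid.** Proof. PreEx, Transport: `TD Γ (pull Λ σ) M' N'` (`pull Λ σ` is even). PiEx and LabelEq give `π`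
with `a ~ b → π a ~ π b` and equal half labels, hence equal labels (`IsEven.label_eq`). The converse
`π a ~ π b → a ~ b`: the number of adjacent pairs is the same finite number on both sides (or: `π a ~ π b`
and `Tw (π a) a`, `Tw (π b) b` give `a ~ b` or ... ; simplest: an injective map of the finite set of adjacent
pairs of `Γ` into itself is surjective, using `TD.adj`). Compose with `σ`. -/
def Rigid : Prop := ∀ (V W : Type) [Fintype V] [Fintype W] (Γ : LGraph V) (Λ : LGraph W),
  IsEven Γ → IsEven Λ → TwinsIsolated Γ → Nonempty (Artin Γ ≃* Artin Λ) →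
  ∃ π : V ≃ W, (∀ a b, Γ.graph.Adj a b ↔ Λ.graph.Adj (π a) (π b)) ∧
    ∀ a b, Γ.graph.Adj a b → Λ.label s(π a, π b) = Γ.label s(a, b)

end WGTwin
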