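import Mathlib
import Pool.Agent.Lib.MP_107652_al.Twin.Spec

/-! # MP_107652_al: the power series ring over `ZMod p` is a good ring -/

set_option autoImplicit false

open Finset

namespace WGTwin

namespace GoodExAux

/-- `1 + X` has infinite order: natural exponents. -/
theorem pow_ne (p : ℕ) [Fact p.Prime] (n : ℕ) (hn : n ≠ 0) :
    (1 + PowerSeries.X : PowerSeries (ZMod p)) ^ n ≠ 1 := by
  intro h
  have h2 : (((Polynomial.X + Polynomial.C 1) ^ n : Polynomial (ZMod p)) : PowerSeries (ZMod p))
      = ((1 : Polynomial (ZMod p)) : PowerSeries (ZMod p)) := by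
    rw [Polynomial.coe_pow, Polynomial.coe_add, Polynomial.coe_X, Polynomial.coe_C,
      Polynomial.coe_one, map_one, add_comm]
    exact h
  have h3 : ((Polynomial.X + Polynomial.C 1) ^ n : Polynomial (ZMod p)) = 1 :=
    Polynomial.coe_injective _ h2
  have h4 : ((Polynomial.X + Polynomial.C 1) ^ n : Polynomial (ZMod p)).natDegree = n := by
    rw [Polynomial.natDegree_pow, Polynomial.natDegree_X_add_C, mul_one]
  rw [h3, Polynomial.natDegree_one] at h4
  exact hn h4.symm

theorem isUnit_one_add (p : ℕ) [Fact p.Prime] :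
    IsUnit (1 + PowerSeries.X : PowerSeries (ZMod p)) := by
  rw [PowerSeries.isUnit_iff_constantCoeff]
  simp

end GoodExAux

open GoodExAux in
theorem goodEx : GoodEx := by
  intro p hp
  have : Fact p.Prime := ⟨hp⟩
  refine ⟨PowerSeries (ZMod p), inferInstance, inferInstance, PowerSeries.X,
    (isUnit_one_add p).unit, ?_, ?_, ?_, ?_⟩
  · intro k
    have e : (k : PowerSeries (ZMod p)) = PowerSeries.C (k : ZMod p) := by
      rw [map_natCast]
    rw [e, ← map_zero (PowerSeries.C (R := ZMod p)),
      (PowerSeries.C_injective (R := ZMod p)).eq_iff, ZMod.natCast_eq_zero_iff]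
  · exact IsUnit.unit_spec _
  · intro m hm
    by_contra hm0
    have h1 : ((isUnit_one_add p).unit) ^ m.natAbs = 1 := by
      rcases Int.natAbs_eq m with h | h
      · rw [h, zpow_natCast] at hm
        exact hm
      · rw [h, zpow_neg, zpow_natCast, inv_eq_one] at hm
        exact hm
    have h2 := congrArg Units.val h1
    rw [Units.val_pow_eq_pow_val, IsUnit.unit_spec, Units.val_one] at h2
    exact pow_ne p m.natAbs (by omega) h2
  · intro x hx
    ext m
    rw [map_zero]
    exact (PowerSeries.X_pow_dvd_iff.1 (hx (m + 1))) m (Nat.lt_succ_self m)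

end WGTwin
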