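import Pool.Agent.Lib.MP_107652_al.Twin.Spec

/-!
# MP_107652_al: star representations of even Artin groups over a ring of characteristic `p`
-/

set_option autoImplicit false

open Finset

namespace WGTwin

open WGirth

namespace RepPAux

variable {R : Type} [CommRing R]

/-- an affine map with fixed point `1` -/
def fx (u : Rˣ) : AR R := ⟨u, 1 - (u : R)⟩

theorem fx_one : (fx (1 : Rˣ) : AR R) = 1 := by
  ext
  · rfl
  · simp [fx]

theorem fx_comm (u v : Rˣ) : fx u * fx v = fx v * fx u := by
  rw [AR.commute_iff]
  simp only [fx]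
  ring

theorem pow_one_of {g : AR R} {k : ℕ} (ha : g.a = 1) (hk : (k : R) = 0) : g ^ k = 1 := by
  rw [AR.pow_eq]
  ext
  · simp [ha]
  · simp [ha, hk]

end RepPAux

open RepPAux

theorem repP : RepP := by
  intro p R _ _ X t hG V _ Γ hΓ a b hab hp A haA hbA hind m
  let g : V → AR R := fun v => if v = a then ⟨t, 0⟩ else if v = b then fx t⁻¹ else
    if v ∈ A then fx (t ^ m v) else 1
  have hba : b ≠ a := hab.ne.symm
  have ga : g a = ⟨t, 0⟩ := by simp only [g, if_true]
  have gb : g b = fx t⁻¹ := by simp only [g, if_neg hba, if_true]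
  have gA : ∀ v, v ≠ a → v ∈ A → g v = fx (t ^ m v) := by
    intro v h1 h2
    have h3 : v ≠ b := by rintro rfl; exact hbA h2
    simp only [g, if_neg h1, if_neg h3, if_pos h2]
  have gO : ∀ v, v ≠ b → v ∉ A → g v = 1 := by
    intro v h1 h2
    have h3 : v ≠ a := by rintro rfl; exact h2 haA
    simp only [g, if_neg h1, if_neg h3, if_neg h2]
  -- the image of every other generator has the fixed point `1`
  have gF : ∀ v, v ≠ a → ∃ u : Rˣ, g v = fx u := by
    intro v hv
    by_cases h1 : v = b
    · subst h1
      exact ⟨_, gb⟩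
    · by_cases h2 : v ∈ A
      · exact ⟨_, gA v hv h2⟩
      · exact ⟨1, by rw [gO v h1 h2, fx_one]⟩
  -- the relation between `a` and `b`
  have hk0 : ∀ k : ℕ, p ∣ k → (g a * g b) ^ k = 1 ∧ (g b * g a) ^ k = 1 := by
    intro k hk
    have h0 : (k : R) = 0 := (hG.char k).2 hk
    constructor
    · refine pow_one_of ?_ h0
      rw [ga, gb]
      simp [fx]
    · refine pow_one_of ?_ h0
      rw [ga, gb]
      simp [fx]
  -- the vertices adjacent to `a`
  have hadj : ∀ v, Γ.graph.Adj a v → v = b ∨ g v = 1 := by
    intro v hv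
    by_cases h1 : v = b
    · exact Or.inl h1
    · right
      refine gO v h1 ?_
      intro h2
      exact hind a haA v h2 hv
  have hrel : ∀ r s, Γ.graph.Adj r s → (g r * g s) ^ half Γ r s = (g s * g r) ^ half Γ r s := by
    intro r s hrs
    have hne : r ≠ s := hrs.ne
    by_cases hr : r = a
    · subst hr
      rcases hadj s hrs with h | h
      · subst h
        rw [(hk0 _ hp).1, (hk0 _ hp).2]
      · rw [h, mul_one, one_mul]
    · by_cases hs : s = a
      · subst hs
        rcases hadj r hrs.symm with h | h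
        · subst h
          rw [half_comm, (hk0 _ hp).1, (hk0 _ hp).2]
        · rw [h, mul_one, one_mul]
      · obtain ⟨u, hu⟩ := gF r hr
        obtain ⟨v, hv⟩ := gF s hs
        rw [hu, hv, fx_comm]
  obtain ⟨f, hf⟩ := exists_hom hΓ g hrel
  refine ⟨f, ?_, ?_, gen Γ a, gen Γ b, ?_⟩
  · intro v
    rw [hf]
    by_cases h1 : v = a
    · subst h1
      rw [ga, if_pos rfl, zpow_one]
    · rw [if_neg h1]
      by_cases h2 : v = b
      · subst h2
        rw [gb, if_pos rfl, zpow_neg, zpow_one]
        rfl
      · rw [if_neg h2]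
        by_cases h3 : v ∈ A
        · rw [gA v h1 h3, if_pos h3]
          rfl
        · rw [gO v h2 h3, if_neg h3, zpow_zero]
          rfl
  · intro v h1 h2
    rw [hf]
    exact gO v h1 h2
  · rw [hf, hf, ga, gb]
    rw [Ne, AR.commute_iff]
    intro h
    have ht : t ≠ 1 := by
      intro h1
      have h2 := hG.inf 1 (by rw [zpow_one]; exact h1)
      exact one_ne_zero h2
    simp only [fx, mul_zero, mul_eq_zero] at h
    rcases h with h | h
    · apply ht
      ext
      rw [Units.val_one]
      exact (sub_eq_zero.1 h).symm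
    · apply ht
      have h3 : t⁻¹ = 1 := by
        ext
        rw [Units.val_one]
        exact (sub_eq_zero.1 h).symm
      exact inv_eq_one.1 h3

end WGTwin
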