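import Pool.Agent.Lib.MP_107652_al.Twin.Spec

/-!
# MP_107652_al: the blocks of the matrices on a twin class are inverse to each other
-/

set_option autoImplicit false

open Finset

namespace WGTwin

open WGirth

namespace ClassInvAux

theorem mem_cls {V : Type} [Fintype V] (Γ : LGraph V) (a w : V) : w ∈ cls Γ a ↔ Tw Γ w a := by
  classical
  unfold cls
  rw [Finset.mem_filter]
  exact ⟨fun h => h.2, fun h => ⟨Finset.mem_univ _, h⟩⟩

end ClassInvAux

open ClassInvAux in
/-- **ClassInv.** -/
theorem classInv (h : DomTr) : ClassInv := by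
  intro V _ _ Γ Λ M N hTD a x y hx hy
  obtain ⟨_, htr⟩ := h V Γ
  have hx' := (mem_cls Γ a x).mp hx
  have hy' := (mem_cls Γ a y).mp hy
  have key : ∀ w, Dom Γ w x → Dom Γ y w → w ∈ cls Γ a := fun w h1 h2 =>
    (mem_cls Γ a w).mpr ⟨htr w x a h1 hx'.1, htr a y w hy'.2 h2⟩
  constructor
  · rw [← hTD.pre.nm x y]
    refine Finset.sum_subset (Finset.subset_univ _) fun w _ hw => ?_
    by_contra hne
    rcases not_or.mp (fun h' => hne (mul_eq_zero.mpr h')) with ⟨h1, h2⟩
    exact hw (key w (hTD.domN x w h1) (hTD.domM y w h2))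
  · rw [← hTD.pre.mn x y]
    refine Finset.sum_subset (Finset.subset_univ _) fun w _ hw => ?_
    by_contra hne
    rcases not_or.mp (fun h' => hne (mul_eq_zero.mpr h')) with ⟨h1, h2⟩
    exact hw (key w (hTD.domM w x h1) (hTD.domN w y h2))

end WGTwin
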