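import Pool.Agent.Lib.MP_107652_al.Twin.Spec

/-!
# MP_107652_al: domination is a preorder
-/

set_option autoImplicit false

namespace WGTwin

open WGirth

theorem domTr : DomTr := by
  intro V Γ
  refine ⟨fun v j hj => Or.inr hj.symm, ?_⟩
  intro u v w huv hvw j hj
  rcases huv j hj with h | h
  · subst h
    -- j adjacent to u
    rcases hvw u hj.symm with h2 | h2
    · subst h2
      exact Or.inr hj.symm
    · rcases huv w h2 with h3 | h3
      · exact Or.inl h3.symm
      · exact Or.inr h3.symm
  · exact hvw j h.symm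

theorem tDsymm : TDsymm := by
  intro V _ _ Γ Λ M N h
  have hd : ∀ v w, Dom Γ v w → Dom Λ v w := by
    intro v w hvw j hj
    rcases hvw j ((h.adj v j).mpr hj) with h1 | h1
    · exact Or.inl h1
    · exact Or.inr ((h.adj j w).mp h1)
  refine ⟨⟨h.pre.mn, h.pre.nm, h.pre.heisN, h.pre.heisN0, h.pre.heisM, h.pre.heisM0,
    h.pre.starM, h.pre.starN⟩, fun a b => (h.adj a b).symm, ?_, ?_⟩
  · exact fun v l hv => hd _ _ (h.domN l v hv)
  · exact fun v l hv => hd _ _ (h.domM l v hv)

end WGTwin
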