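import Mathlib
import Pool.Agent.Lib.MP_107652_al.Twin.Spec

/-! # MP_107652_al: degrees can only grow along nonzero entries of the matrix -/

set_option autoImplicit false

open Finset

namespace WGTwin

open WGirth

theorem degLe : DegLe := by
  intro V W _ _ _ _ Γ Λ M N hNM hM0 v i hiv
  classical
  set A := {w // w = v ∨ Γ.graph.Adj v w} with hA
  set B := {j // j = i ∨ Λ.graph.Adj i j} with hB
  -- the linear map
  let L : (A → ℚ) →ₗ[ℚ] (B → ℚ) :=
    { toFun := fun c j => ∑ w : A, (M j.1 w.1 : ℚ) * c w
      map_add' := by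
        intro c d
        funext j
        simp only [Pi.add_apply, mul_add, Finset.sum_add_distrib]
      map_smul' := by
        intro r c
        funext j
        simp only [Pi.smul_apply, smul_eq_mul, RingHom.id_apply, Finset.mul_sum]
        exact Finset.sum_congr rfl fun w _ => by ring }
  have hinj : Function.Injective L := by
    rw [← LinearMap.ker_eq_bot, LinearMap.ker_eq_bot']
    intro c hc
    have hc' : ∀ j : B, ∑ w : A, (M j.1 w.1 : ℚ) * c w = 0 := fun j => congrFun hc j
    have hyi : ∑ w : A, (M i w.1 : ℚ) * c w = 0 := hc' ⟨i, Or.inl rfl⟩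
    have hy : ∀ l : W, ∑ w : A, (M l w.1 : ℚ) * c w = 0 := by
      intro l
      by_cases hl : l = i ∨ Λ.graph.Adj i l
      · exact hc' ⟨l, hl⟩
      · have hli : l ≠ i := fun h => hl (Or.inl h)
        have hnadj : ¬ Λ.graph.Adj i l := fun h => hl (Or.inr h)
        have hterm : ∀ w : A, (M i v : ℚ) * M l w.1 = (M l v : ℚ) * M i w.1 := by
          rintro ⟨w, hw⟩
          rcases hw with rfl | hw
          · exact mul_comm _ _
          · have h := hM0 v w hw i l (Ne.symm hli) hnadj
            have h' : M i v * M l w = M l v * M i w := by linarith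
            exact_mod_cast h'
        have h1 : (M i v : ℚ) * ∑ w : A, (M l w.1 : ℚ) * c w
            = (M l v : ℚ) * ∑ w : A, (M i w.1 : ℚ) * c w := by
          rw [Finset.mul_sum, Finset.mul_sum]
          refine Finset.sum_congr rfl fun w _ => ?_
          rw [← mul_assoc, hterm w, mul_assoc]
        rw [hyi, mul_zero] at h1
        rcases mul_eq_zero.1 h1 with h2 | h2
        · exact absurd (by exact_mod_cast h2) hiv
        · exact h2
    funext w0
    have h3 : ∑ w : A, (if w0.1 = w.1 then (1 : ℚ) else 0) * c w = 0 := by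
      have h4 : ∀ w : A, (if w0.1 = w.1 then (1 : ℚ) else 0) = ∑ l, (N w0.1 l : ℚ) * M l w.1 := by
        intro w
        have := hNM w0.1 w.1
        have h5 : ((∑ l, N w0.1 l * M l w.1 : ℤ) : ℚ) = ((if w0.1 = w.1 then 1 else 0 : ℤ) : ℚ) := by
          rw [this]
        push_cast at h5
        exact h5.symm
      calc ∑ w : A, (if w0.1 = w.1 then (1 : ℚ) else 0) * c w
          = ∑ w : A, ∑ l, (N w0.1 l : ℚ) * ((M l w.1 : ℚ) * c w) := by
            refine Finset.sum_congr rfl fun w _ => ?_
            rw [h4 w, Finset.sum_mul]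
            exact Finset.sum_congr rfl fun l _ => by ring
        _ = ∑ l, (N w0.1 l : ℚ) * ∑ w : A, (M l w.1 : ℚ) * c w := by
            rw [Finset.sum_comm]
            exact Finset.sum_congr rfl fun l _ => by rw [Finset.mul_sum]
        _ = 0 := by
            refine Finset.sum_eq_zero fun l _ => ?_
            rw [hy l, mul_zero]
    rw [Finset.sum_eq_single w0] at h3
    · simpa using h3
    · intro w _ hw
      have : w0.1 ≠ w.1 := fun h => hw (Subtype.ext h.symm)
      rw [if_neg this, zero_mul]
    · intro h
      exact absurd (Finset.mem_univ _) h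
  have h := LinearMap.finrank_le_finrank_of_injective hinj
  rw [Module.finrank_fintype_fun_eq_card, Module.finrank_fintype_fun_eq_card] at h
  rw [Nat.card_eq_fintype_card, Nat.card_eq_fintype_card]
  exact h

end WGTwin
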