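import Pool.Agent.Lib.MP_107652_al.Twin.Spec

/-!
# MP_107652_al, Twin: (DomM) the matrix of an isomorphism is triangular for domination
-/

set_option autoImplicit false

open Finset

namespace WGTwin

open WGirth

namespace DomMAux

variable {V W : Type}

theorem key (Γ : LGraph V) (Λ : LGraph W) (M : W → V → ℤ)
    (h0 : ∀ a b, Γ.graph.Adj a b → ∀ i j, i ≠ j → ¬ Λ.graph.Adj i j →
      M i a * M j b - M j a * M i b = 0)
    (v : V) [Fintype {w // w = v ∨ Γ.graph.Adj v w}] (c : {w // w = v ∨ Γ.graph.Adj v w} → ℚ)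
    (i j : W) (hij : i ≠ j) (hadj : ¬ Λ.graph.Adj i j) :
    (M i v : ℚ) * ∑ w, (M j w.1 : ℚ) * c w = (M j v : ℚ) * ∑ w, (M i w.1 : ℚ) * c w := by
  rw [Finset.mul_sum, Finset.mul_sum]
  refine Finset.sum_congr rfl fun w _ => ?_
  have h : (M i v : ℚ) * M j w.1 = (M j v : ℚ) * M i w.1 := by
    rcases w.2 with hw | hw
    · rw [hw]; ring
    · have h1 := h0 v w.1 hw i j hij hadj
      have h2 : (M i v : ℤ) * M j w.1 = M j v * M i w.1 := by linarith
      exact_mod_cast h2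
  rw [← mul_assoc, ← mul_assoc, h]

variable [Fintype W] [DecidableEq V]

theorem inj (Γ : LGraph V) (Λ : LGraph W) (M : W → V → ℤ) (N : V → W → ℤ)
    (hnm : ∀ v w, ∑ i, N v i * M i w = if v = w then 1 else 0)
    (h0 : ∀ a b, Γ.graph.Adj a b → ∀ i j, i ≠ j → ¬ Λ.graph.Adj i j →
      M i a * M j b - M j a * M i b = 0)
    (v : V) (i : W) (hiv : M i v ≠ 0) [Fintype {w // w = v ∨ Γ.graph.Adj v w}]
    [Fintype {j // j = i ∨ Λ.graph.Adj i j}] :
    Function.Injective (Matrix.mulVecLin (Matrix.of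
      fun (j : {j // j = i ∨ Λ.graph.Adj i j}) (w : {w // w = v ∨ Γ.graph.Adj v w}) =>
        (M j.1 w.1 : ℚ))) := by
  rw [← LinearMap.ker_eq_bot, LinearMap.ker_eq_bot']
  intro c hc
  have hy : ∀ j : W, ∑ w, (M j w.1 : ℚ) * c w = 0 := by
    have hin : ∀ j : W, (j = i ∨ Λ.graph.Adj i j) → ∑ w, (M j w.1 : ℚ) * c w = 0 := by
      intro j hj
      have := congrFun hc ⟨j, hj⟩
      simpa [Matrix.mulVec, dotProduct] using this
    intro j
    by_cases hj : j = i ∨ Λ.graph.Adj i j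
    · exact hin j hj
    · push Not at hj
      have h1 := key Γ Λ M h0 v c i j hj.1.symm hj.2
      rw [hin i (Or.inl rfl), mul_zero, mul_eq_zero] at h1
      rcases h1 with h1 | h1
      · exact absurd (by exact_mod_cast h1) hiv
      · exact h1
  funext w0
  have h2 : ∑ j, (N w0.1 j : ℚ) * ∑ w, (M j w.1 : ℚ) * c w = 0 := by
    simp [hy]
  have h3 : ∑ j, (N w0.1 j : ℚ) * ∑ w, (M j w.1 : ℚ) * c w =
      ∑ w : {w // w = v ∨ Γ.graph.Adj v w}, (∑ j, (N w0.1 j : ℚ) * (M j w.1 : ℚ)) * c w := by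
    simp only [Finset.mul_sum, Finset.sum_mul]
    rw [Finset.sum_comm]
    refine Finset.sum_congr rfl fun w _ => Finset.sum_congr rfl fun j _ => ?_
    ring
  rw [h3] at h2
  have h4 : ∀ w : {w // w = v ∨ Γ.graph.Adj v w},
      (∑ j, (N w0.1 j : ℚ) * (M j w.1 : ℚ)) = if w0 = w then 1 else 0 := by
    intro w
    have h5 := hnm w0.1 w.1
    have h6 : (∑ j, (N w0.1 j : ℚ) * (M j w.1 : ℚ)) = ((∑ j, N w0.1 j * M j w.1 : ℤ) : ℚ) := by
      push_cast; rfl
    rw [h6, h5]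
    by_cases h7 : w0 = w
    · simp [h7]
    · have h8 : w0.1 ≠ w.1 := fun h => h7 (Subtype.ext h)
      simp [h7, h8]
  simp only [h4, ite_mul, one_mul, zero_mul, Finset.sum_ite_eq, Finset.mem_univ, if_true] at h2
  exact h2

end DomMAux

open DomMAux in
theorem domM (h1 : DegLe) (h2 : PermEx) : DomM := by
  classical
  intro V W _ _ _ _ Γ Λ M N hpre σ hσ
  obtain ⟨τ, hτ⟩ := h2 W V N M hpre.mn hpre.nm
  have hM := h1 V W Γ Λ M N hpre.nm hpre.heisM0
  have hN := h1 W V Λ Γ N M hpre.mn hpre.heisN0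
  have hle : ∀ v, Nat.card {w // w = v ∨ Γ.graph.Adj v w} ≤
      Nat.card {j // j = σ v ∨ Λ.graph.Adj (σ v) j} := fun v => hM v (σ v) (hσ v)
  have hle' : ∀ i, Nat.card {j // j = i ∨ Λ.graph.Adj i j} ≤
      Nat.card {w // w = τ i ∨ Γ.graph.Adj (τ i) w} := fun i => hN i (τ i) (hτ i)
  have hsum1 : ∑ v, Nat.card {j // j = σ v ∨ Λ.graph.Adj (σ v) j} =
      ∑ i, Nat.card {j // j = i ∨ Λ.graph.Adj i j} :=
    Equiv.sum_comp σ fun i => Nat.card {j // j = i ∨ Λ.graph.Adj i j}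
  have hsum2 : ∑ i, Nat.card {w // w = τ i ∨ Γ.graph.Adj (τ i) w} =
      ∑ v, Nat.card {w // w = v ∨ Γ.graph.Adj v w} :=
    Equiv.sum_comp τ fun v => Nat.card {w // w = v ∨ Γ.graph.Adj v w}
  have hcard : ∀ v, Nat.card {w // w = v ∨ Γ.graph.Adj v w} =
      Nat.card {j // j = σ v ∨ Λ.graph.Adj (σ v) j} := by
    have hs : ∑ v, Nat.card {w // w = v ∨ Γ.graph.Adj v w} =
        ∑ v, Nat.card {j // j = σ v ∨ Λ.graph.Adj (σ v) j} := by
      refine le_antisymm (Finset.sum_le_sum fun v _ => hle v) ?_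
      rw [hsum1, ← hsum2]
      exact Finset.sum_le_sum fun i _ => hle' i
    intro v
    exact (Finset.sum_eq_sum_iff_of_le fun v _ => hle v).mp hs v (Finset.mem_univ v)
  refine ⟨hcard, fun v l hl j hj => ?_⟩
  by_contra hcon
  push Not at hcon
  have hinj := inj Γ Λ M N hpre.nm hpre.heisM0 v (σ v) (hσ v)
  have hsurj : Function.Surjective (Matrix.mulVecLin (Matrix.of
      fun (j : {j // j = σ v ∨ Λ.graph.Adj (σ v) j}) (w : {w // w = v ∨ Γ.graph.Adj v w}) =>
        (M j.1 w.1 : ℚ))) := by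
    rw [← LinearMap.injective_iff_surjective_of_finrank_eq_finrank]
    · exact hinj
    · rw [Module.finrank_fintype_fun_eq_card, Module.finrank_fintype_fun_eq_card]
      have := hcard v
      rwa [Nat.card_eq_fintype_card, Nat.card_eq_fintype_card] at this
  obtain ⟨c, hc⟩ := hsurj (Pi.single ⟨j, Or.inr hj⟩ 1)
  have hin : ∀ k (hk : k = σ v ∨ Λ.graph.Adj (σ v) k),
      ∑ w, (M k w.1 : ℚ) * c w = if k = j then 1 else 0 := by
    intro k hk
    have h3 := congrFun hc ⟨k, hk⟩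
    rw [Pi.single_apply] at h3
    simpa [Matrix.mulVec, dotProduct] using h3
  have hne : σ v ≠ j := hj.ne
  have hyi : ∑ w, (M (σ v) w.1 : ℚ) * c w = 0 := by
    rw [hin (σ v) (Or.inl rfl), if_neg hne]
  have hyj : ∑ w, (M j w.1 : ℚ) * c w = 1 := by
    rw [hin j (Or.inr hj), if_pos rfl]
  have hyl : ∑ w, (M l w.1 : ℚ) * c w = 0 := by
    by_cases hlk : l = σ v ∨ Λ.graph.Adj (σ v) l
    · rw [hin l hlk, if_neg hcon.1.symm]
    · push Not at hlk
      have h3 := key Γ Λ M hpre.heisM0 v c (σ v) l hlk.1.symm hlk.2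
      rw [hyi, mul_zero, mul_eq_zero] at h3
      rcases h3 with h3 | h3
      · exact absurd (by exact_mod_cast h3) (hσ v)
      · exact h3
  have h4 := key Γ Λ M hpre.heisM0 v c l j hcon.1.symm (fun h => hcon.2 h.symm)
  rw [hyl, hyj, mul_zero, mul_one] at h4
  exact hl (by exact_mod_cast h4)

end WGTwin
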