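import Pool.Agent.Lib.MP_107652_al.Twin.Spec

/-!
# MP_107652_al: DomN, the inverse matrix is block triangular
-/

set_option autoImplicit false

namespace WGTwin

open WGirth

theorem domN (h : DomTr) : DomN := by
  intro V W _ _ _ _ Λ M N hnm σ hM v l hv
  classical
  obtain ⟨hrefl, htr⟩ := h W Λ
  by_contra hcon
  set A : Matrix W W ℚ := fun w u => (M w (σ.symm u) : ℚ) with hA
  set B : Matrix W W ℚ := fun u w => (N (σ.symm u) w : ℚ) with hB
  have hBA : B * A = 1 := by
    ext a b
    rw [Matrix.mul_apply, Matrix.one_apply]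
    have h1 := hnm (σ.symm a) (σ.symm b)
    have h2 : (∑ i, (N (σ.symm a) i : ℚ) * (M i (σ.symm b) : ℚ))
        = ((if σ.symm a = σ.symm b then 1 else 0 : ℤ) : ℚ) := by
      rw [← h1]
      push_cast
      rfl
    simp only [hA, hB]
    rw [h2]
    by_cases hab : a = b
    · subst hab
      simp
    · rw [if_neg hab, if_neg (fun h' => hab (σ.symm.injective h'))]
      simp
  have hinj : Function.Injective A.mulVecLin := by
    intro x y hxy
    have h1 : B.mulVec (A.mulVec x) = B.mulVec (A.mulVec y) := congrArg B.mulVec hxy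
    rwa [Matrix.mulVec_mulVec, Matrix.mulVec_mulVec, hBA, Matrix.one_mulVec,
      Matrix.one_mulVec] at h1
  -- vectors supported on the vertices dominating `l`
  let P : Submodule ℚ (W → ℚ) :=
    { carrier := {x | ∀ w, ¬ Dom Λ l w → x w = 0}
      add_mem' := by
        intro x y hx hy w hw
        rw [Pi.add_apply, hx w hw, hy w hw, add_zero]
      zero_mem' := fun w _ => rfl
      smul_mem' := by
        intro c x hx w hw
        rw [Pi.smul_apply, hx w hw, smul_zero] }
  have hPmem : ∀ x : W → ℚ, x ∈ P ↔ ∀ w, ¬ Dom Λ l w → x w = 0 := fun x => Iff.rfl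
  have hmap : P.map A.mulVecLin ≤ P := by
    rintro _ ⟨x, hx, rfl⟩
    rw [hPmem]
    intro w hw
    rw [Matrix.mulVecLin_apply]
    change ∑ u, A w u * x u = 0
    apply Finset.sum_eq_zero
    intro u _
    by_cases hu : Dom Λ l u
    · have h1 : M w (σ.symm u) = 0 := by
        by_contra h2
        have h3 := hM _ _ h2
        rw [Equiv.apply_symm_apply] at h3
        exact hw (htr l u w hu h3)
      simp only [hA]
      rw [h1]
      simp
    · rw [hx u hu, mul_zero]
  have hfin : Module.finrank ℚ (P.map A.mulVecLin) = Module.finrank ℚ P :=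
    (LinearEquiv.finrank_eq (Submodule.equivMapOfInjective A.mulVecLin hinj P)).symm
  have heq : P.map A.mulVecLin = P := Submodule.eq_of_le_of_finrank_eq hmap hfin
  have hl : (Pi.single l 1 : W → ℚ) ∈ P := by
    rw [hPmem]
    intro w hw
    rw [Pi.single_apply, if_neg]
    rintro rfl
    exact hw (hrefl _)
  rw [← heq] at hl
  obtain ⟨x, hx, hxl⟩ := hl
  have h1 : x = B.mulVec (Pi.single l 1) := by
    rw [← hxl, Matrix.mulVecLin_apply, Matrix.mulVec_mulVec, hBA, Matrix.one_mulVec]
  have h2 : x (σ v) = (N v l : ℚ) := by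
    rw [h1, Matrix.mulVec_single_one]
    change (N (σ.symm (σ v)) l : ℚ) = _
    rw [Equiv.symm_apply_apply]
  have h3 := hx (σ v) hcon
  rw [h2] at h3
  exact hv (by exact_mod_cast h3)

end WGTwin
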