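import Pool.Agent.Lib.MP_107652_al.Twin.Spec
import Pool.Agent.Lib.MP_107652_al.LemB

/-!
# MP_107652_al: PermEx
-/

set_option autoImplicit false

open Finset

namespace WGTwin

theorem permEx : PermEx := by
  intro V W _ _ _ _ M N h1 h2
  have hc : Fintype.card V = Fintype.card W := WGirth.cardEq V W M N h1 h2
  let e : V ≃ W := Fintype.equivOfCardEq hc
  let A : Matrix V V ℤ := Matrix.of fun v w => M (e v) w
  let B : Matrix V V ℤ := Matrix.of fun v w => N v (e w)
  have hBA : B * A = 1 := by
    ext v w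
    rw [Matrix.mul_apply, Matrix.one_apply, ← h1 v w]
    exact Equiv.sum_comp e fun i => N v i * M i w
  have hdet : A.det ≠ 0 := by
    intro h0
    have h3 : (B * A).det = 1 := by rw [hBA, Matrix.det_one]
    rw [Matrix.det_mul, h0, mul_zero] at h3
    exact absurd h3 (by norm_num)
  rw [Matrix.det_apply] at hdet
  obtain ⟨σ, -, hσ⟩ := Finset.exists_ne_zero_of_sum_ne_zero hdet
  refine ⟨σ.trans e, fun v hv => hσ ?_⟩
  have h4 : ∏ i, A (σ i) i = 0 := Finset.prod_eq_zero (Finset.mem_univ v) hv
  rw [h4, smul_zero]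

end WGTwin
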