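import Pool.Agent.Lib.MP_107652_al.Twin.Spec

/-!
# MP_107652_al: the labels agree
-/

set_option autoImplicit false

namespace WGTwin

open WGirth

namespace LabelEqAux

variable {V : Type}

theorem tw_symm {Γ : LGraph V} {v w : V} (h : Tw Γ v w) : Tw Γ w v := ⟨h.2, h.1⟩

theorem tw_trans (h2 : DomTr) {Γ : LGraph V} {u v w : V} (h : Tw Γ u v) (h' : Tw Γ v w) :
    Tw Γ u w :=
  ⟨(h2 V Γ).2 u v w h.1 h'.1, (h2 V Γ).2 w v u h'.2 h.2⟩

theorem dom_congr {Γ Λ : LGraph V} (hadj : ∀ a b, Γ.graph.Adj a b ↔ Λ.graph.Adj a b) (v w : V) :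
    Dom Γ v w ↔ Dom Λ v w := by
  unfold Dom
  constructor
  · intro h j hj
    rcases h j ((hadj v j).mpr hj) with h1 | h1
    · exact Or.inl h1
    · exact Or.inr ((hadj j w).mp h1)
  · intro h j hj
    rcases h j ((hadj v j).mp hj) with h1 | h1
    · exact Or.inl h1
    · exact Or.inr ((hadj j w).mpr h1)

/-- adjacency of non-twins passes to the twins -/
theorem adj_of_tw (h2 : DomTr) {Γ : LGraph V} {a b x y : V} (hab : Γ.graph.Adj a b)
    (hn : ¬ Tw Γ a b) (hx : Tw Γ x a) (hy : Tw Γ y b) : Γ.graph.Adj x y := by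
  rcases hx.2 b hab with h | h
  · subst h
    exact absurd (tw_symm hx) hn
  · rcases hy.2 x h with h3 | h3
    · subst h3
      exact absurd (tw_trans h2 (tw_symm hx) hy) hn
    · exact h3

/-- an end of an edge between non-twins has no adjacent twin -/
theorem no_adj_twin {Γ : LGraph V} (hT : TwinsIsolated Γ) {a b : V} (hab : Γ.graph.Adj a b)
    (hn : ¬ Tw Γ a b) : ∀ x, Tw Γ x a → ¬ Γ.graph.Adj x a := by
  intro x hx hadj
  have h := hT a x hadj.symm (tw_symm hx) b hab
  subst h
  exact hn (tw_symm hx)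

theorem dvd_unit {x k d e : ℤ} (h : x ∣ k * d) (hde : d * e = 1) : x ∣ k := by
  have h1 : x ∣ k * d * e := Dvd.dvd.mul_right h e
  rwa [mul_assoc, hde, mul_one] at h1

open Classical in
theorem mem_cls [Fintype V] {Γ : LGraph V} {v x : V} : x ∈ cls Γ v ↔ Tw Γ x v := by
  unfold cls
  rw [Finset.mem_filter]
  exact ⟨fun h => h.2, fun h => ⟨Finset.mem_univ _, h⟩⟩

/-- the case of adjacent twins -/
theorem twin_case (h1 : ClassInv) [Fintype V] [DecidableEq V] {Γ Λ : LGraph V}
    {M N : V → V → ℤ} (h : TD Γ Λ M N) (hT : TwinsIsolated Γ) {a b : V} (hab : Γ.graph.Adj a b)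
    (htw : Tw Γ a b) :
    (∀ x, Tw Γ x a → x = a ∨ x = b) ∧ half Λ a b = half Γ a b := by
  have ha : ∀ c, Γ.graph.Adj a c → c = b := hT a b hab htw
  have hb : ∀ c, Γ.graph.Adj b c → c = a := hT b a hab.symm (tw_symm htw)
  have hx : ∀ x, Tw Γ x a → x = a ∨ x = b := by
    intro x hx
    rcases hx.2 b hab with h3 | h3
    · exact Or.inr h3.symm
    · exact Or.inl (hb x h3)
  refine ⟨hx, ?_⟩
  have hne : a ≠ b := hab.ne
  have hrefl : Tw Γ a a := ⟨fun j hj => Or.inr hj.symm, fun j hj => Or.inr hj.symm⟩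
  have hcls : cls Γ a = {a, b} := by
    ext x
    rw [Finset.mem_insert, Finset.mem_singleton]
    constructor
    · intro hh
      exact hx x (mem_cls.mp hh)
    · rintro (hh | hh)
      · subst hh
        exact mem_cls.mpr hrefl
      · subst hh
        exact mem_cls.mpr (tw_symm htw)
  have hm : ∀ x, x = a ∨ x = b → x ∈ cls Γ a := by
    intro x hh
    rw [hcls, Finset.mem_insert, Finset.mem_singleton]
    exact hh
  have hsum : ∀ f : V → ℤ, ∑ w ∈ cls Γ a, f w = f a + f b := by
    intro f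
    rw [hcls, Finset.sum_pair hne]
  have eaa := (h1 V Γ Λ M N h a a a (hm a (Or.inl rfl)) (hm a (Or.inl rfl))).1
  have eab := (h1 V Γ Λ M N h a a b (hm a (Or.inl rfl)) (hm b (Or.inr rfl))).1
  have eba := (h1 V Γ Λ M N h a b a (hm b (Or.inr rfl)) (hm a (Or.inl rfl))).1
  have ebb := (h1 V Γ Λ M N h a b b (hm b (Or.inr rfl)) (hm b (Or.inr rfl))).1
  rw [hsum, if_pos rfl] at eaa ebb
  rw [hsum, if_neg hne] at eab
  rw [hsum, if_neg hne.symm] at eba
  have hdet : (M a a * M b b - M b a * M a b) * (N a a * N b b - N b a * N a b) = 1 := by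
    have e1 : (M a a * M b b - M b a * M a b) * (N a a * N b b - N b a * N a b) =
        (N a a * M a a + N a b * M b a) * (N b a * M a b + N b b * M b b) -
        (N a a * M a b + N a b * M b b) * (N b a * M a a + N b b * M b a) := by ring
    rw [e1, eaa, ebb, eab, eba]
    norm_num
  have hab' : Λ.graph.Adj a b := (h.adj a b).mp hab
  have d1 := dvd_unit (h.pre.heisM a b hab a b hab') hdet
  have d2 := dvd_unit (h.pre.heisN a b hab' a b hab) (by rw [mul_comm]; exact hdet)
  exact Nat.dvd_antisymm (Int.natCast_dvd_natCast.mp d1) (Int.natCast_dvd_natCast.mp d2)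

end LabelEqAux

open LabelEqAux

theorem labelEq (h1 : ClassInv) (h2 : DomTr) : LabelEq := by
  intro V _ _ Γ Λ M N hΓ hΛ h hT π hπ hH hU a b hab
  by_cases htw : Tw Γ a b
  · -- adjacent twins
    obtain ⟨hx, hhalf⟩ := twin_case h1 h hT hab htw
    have hpa := hx (π a) (hπ a)
    have hpb := hx (π b) (tw_trans h2 (hπ b) (tw_symm htw))
    have hne : π a ≠ π b := fun e => hab.ne (π.injective e)
    have hab' : Λ.graph.Adj a b := (h.adj a b).mp hab
    rcases hpa with e1 | e1
    · rcases hpb with e2 | e2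
      · exact absurd (e1.trans e2.symm) hne
      · rw [e1, e2]
        exact ⟨hab', hhalf⟩
    · rcases hpb with e2 | e2
      · rw [e1, e2]
        exact ⟨hab'.symm, by rw [half_comm, hhalf]⟩
      · exact absurd (e1.trans e2.symm) hne
  · have hadj : Γ.graph.Adj (π a) (π b) := adj_of_tw h2 hab htw (hπ a) (hπ b)
    have hadjL : Λ.graph.Adj (π a) (π b) := (h.adj _ _).mp hadj
    refine ⟨hadjL, ?_⟩
    have htw' : ¬ Tw Γ (π a) (π b) := fun e =>
      htw (tw_trans h2 (tw_trans h2 (tw_symm (hπ a)) e) (hπ b))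
    have hdc := dom_congr h.adj
    have htwL : ∀ x y, Tw Λ x y → Tw Γ x y := fun x y e =>
      ⟨(hdc x y).mpr e.1, (hdc y x).mpr e.2⟩
    have na := no_adj_twin hT hab htw
    have nb := no_adj_twin hT hab.symm (fun e => htw (tw_symm e))
    have npa := no_adj_twin hT hadj htw'
    have npb := no_adj_twin hT hadj.symm (fun e => htw' (tw_symm e))
    have hpos1 := hΓ.half_pos hab
    have hpos2 := hΛ.half_pos hadjL
    by_cases hheavy : Heavy Γ a ∧ Heavy Γ b
    · obtain ⟨ha, hb⟩ := hheavy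
      have ua := hU a ha
      have ub := hU b hb
      have z1 : M (π b) a * M (π a) b = 0 := by
        by_contra hz
        have e1 : M (π b) a ≠ 0 := left_ne_zero_of_mul hz
        have e2 : M (π a) b ≠ 0 := right_ne_zero_of_mul hz
        exact htw ⟨(h2 V Γ).2 _ _ _ (h.domM a _ e1) (hπ b).1,
          (h2 V Γ).2 _ _ _ (h.domM b _ e2) (hπ a).1⟩
      have z2 : N b (π a) * N a (π b) = 0 := by
        by_contra hz
        have e1 : N b (π a) ≠ 0 := left_ne_zero_of_mul hz
        have e2 : N a (π b) ≠ 0 := right_ne_zero_of_mul hz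
        exact htw ⟨(h2 V Γ).2 _ _ _ (hπ a).2 (h.domN b _ e1),
          (h2 V Γ).2 _ _ _ (hπ b).2 (h.domN a _ e2)⟩
      have d1 := h.pre.heisM a b hab (π a) (π b) hadjL
      rw [z1, sub_zero] at d1
      have d2 := h.pre.heisN (π a) (π b) hadjL a b hab
      rw [z2, sub_zero] at d2
      have e1 : (M (π a) a * M (π b) b) * (N a (π a) * N b (π b)) = 1 := by
        calc (M (π a) a * M (π b) b) * (N a (π a) * N b (π b)) =
            (M (π a) a * N a (π a)) * (M (π b) b * N b (π b)) := by ring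
          _ = 1 := by rw [ua, ub]; norm_num
      have e2 : (N a (π a) * N b (π b)) * (M (π a) a * M (π b) b) = 1 := by
        rw [mul_comm]; exact e1
      exact Nat.dvd_antisymm (Int.natCast_dvd_natCast.mp (dvd_unit d1 e1))
        (Int.natCast_dvd_natCast.mp (dvd_unit d2 e2))
    · have l1 : ¬ 2 ≤ half Γ a b := fun hl => hheavy
        ⟨⟨na, b, hab, hl⟩, ⟨nb, a, hab.symm, by rw [half_comm]; exact hl⟩⟩
      have l2 : ¬ 2 ≤ half Λ (π a) (π b) := fun hl => hheavy
        ⟨(hH a).mpr ⟨fun x hx hxa => npa x (htwL _ _ hx) ((h.adj _ _).mpr hxa),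
            π b, hadjL, hl⟩,
          (hH b).mpr ⟨fun x hx hxb => npb x (htwL _ _ hx) ((h.adj _ _).mpr hxb),
            π a, hadjL.symm, by rw [half_comm]; exact hl⟩⟩
      omega

end WGTwin
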