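import Pool.Agent.Lib.MP_107652_al.Twin.Spec
import Pool.Agent.Lib.MP_107652_al.ExpHom

/-!
# MP_107652_al, Twin: the matrices of an isomorphism of even Artin groups
-/

set_option autoImplicit false

open Finset

namespace WGTwin

open WGirth

namespace PreExAux

variable {V W : Type} [Fintype V] [Fintype W] [DecidableEq V] [DecidableEq W]

theorem inv_aux {Γ : LGraph V} {Λ : LGraph W} {x : V → (Artin Γ →* Multiplicative ℤ)}
    {y : W → (Artin Λ →* Multiplicative ℤ)} (hx : IsExp Γ x) (hy : IsExp Λ y)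
    (φ : Artin Γ →* Artin Λ) (ψ : Artin Λ →* Artin Γ) (h : ∀ g, ψ (φ g) = g) (v w : V) :
    ∑ i, mat x ψ v i * mat y φ i w = if v = w then 1 else 0 := by
  have h0 := hy.2 (Multiplicative ℤ) ((x v).comp ψ) (φ (gen Γ w))
  have h1 : ((x v).comp ψ) (φ (gen Γ w)) = x v (gen Γ w) := by
    rw [MonoidHom.comp_apply, h]
  rw [h1, hx.1] at h0
  have h2 := congrArg Multiplicative.toAdd h0
  rw [toAdd_prod] at h2
  have h3 : Multiplicative.toAdd (if v = w then Multiplicative.ofAdd (1 : ℤ) else 1)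
      = if v = w then 1 else 0 := by split_ifs <;> simp
  rw [h3] at h2
  rw [h2]
  apply Finset.sum_congr rfl
  intro i _
  rw [toAdd_zpow, smul_eq_mul, mul_comm]
  rfl

omit [Fintype V] [Fintype W] [DecidableEq V] [DecidableEq W] in
theorem rel_aux {Γ : LGraph V} {Λ : LGraph W} (hΓ : IsEven Γ) (φ : Artin Γ →* Artin Λ) (a b : V)
    (hab : Γ.graph.Adj a b) :
    (φ (gen Γ a) * φ (gen Γ b)) ^ half Γ a b = (φ (gen Γ b) * φ (gen Γ a)) ^ half Γ a b := by
  have h := congrArg φ (gen_rel hΓ hab)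
  simpa only [map_pow, map_mul] using h

theorem heis_aux (h1 : HeisGen) {Γ : LGraph V} {Λ : LGraph W} (hΓ : IsEven Γ) (hΛ : IsEven Λ)
    {y : W → (Artin Λ →* Multiplicative ℤ)} (hy : IsExp Λ y) (φ : Artin Γ →* Artin Λ) (a b : V)
    (hab : Γ.graph.Adj a b) (i j : W) (hij : Λ.graph.Adj i j) :
    (half Λ i j : ℤ) ∣ half Γ a b * (mat y φ i a * mat y φ j b - mat y φ j a * mat y φ i b) :=
  h1 W Λ hΛ y hy.1 i j (half Λ i j) hij.ne (fun _ => dvd_rfl) (φ (gen Γ a)) (φ (gen Γ b))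
    (half Γ a b) (rel_aux hΓ φ a b hab)

theorem heis0_aux (h1 : HeisGen) {Γ : LGraph V} {Λ : LGraph W} (hΓ : IsEven Γ) (hΛ : IsEven Λ)
    {y : W → (Artin Λ →* Multiplicative ℤ)} (hy : IsExp Λ y) (φ : Artin Γ →* Artin Λ) (a b : V)
    (hab : Γ.graph.Adj a b) (i j : W) (hne : i ≠ j) (hij : ¬ Λ.graph.Adj i j) :
    mat y φ i a * mat y φ j b - mat y φ j a * mat y φ i b = 0 := by
  have h2 := h1 W Λ hΛ y hy.1 i j 0 hne (fun h => absurd h hij) (φ (gen Γ a)) (φ (gen Γ b))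
    (half Γ a b) (rel_aux hΓ φ a b hab)
  rw [Nat.cast_zero, zero_dvd_iff] at h2
  have h3 : (half Γ a b : ℤ) ≠ 0 := by
    have := hΓ.half_pos hab
    positivity
  exact (mul_eq_zero.1 h2).resolve_left h3

end PreExAux

open PreExAux in
/-- **PreEx**. -/
theorem preEx (h1 : HeisGen) (h2 : StarEx) : PreEx := by
  intro V W _ _ _ _ Γ Λ hΓ hΛ he
  obtain ⟨e⟩ := he
  obtain ⟨x, hx⟩ := expHom V Γ hΓ
  obtain ⟨y, hy⟩ := expHom W Λ hΛ
  have hx' : IsExp Γ x := hx
  have hy' : IsExp Λ y := hy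
  have e1 : ∀ g, e.symm.toMonoidHom (e.toMonoidHom g) = g := fun g => e.symm_apply_apply g
  have e2 : ∀ g, e.toMonoidHom (e.symm.toMonoidHom g) = g := fun g => e.apply_symm_apply g
  refine ⟨mat y e.toMonoidHom, mat x e.symm.toMonoidHom, ?_⟩
  exact
    { nm := fun v w => inv_aux hx' hy' _ _ e1 v w
      mn := fun i j => inv_aux hy' hx' _ _ e2 i j
      heisM := fun a b hab i j hij => heis_aux h1 hΓ hΛ hy' _ a b hab i j hij
      heisM0 := fun a b hab i j hne hij => heis0_aux h1 hΓ hΛ hy' _ a b hab i j hne hij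
      heisN := fun i j hij a b hab => heis_aux h1 hΛ hΓ hx' _ i j hij a b hab
      heisN0 := fun i j hij a b hne hab => heis0_aux h1 hΛ hΓ hx' _ i j hij a b hne hab
      starN := h2 V W Γ Λ hΓ hΛ x hx' _
      starM := h2 W V Λ Γ hΛ hΓ y hy' _ }

end WGTwin
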