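import Pool.Agent.Lib.MP_107652_al.Twin.Spec

/-!
# MP_107652_al: the rigidity theorem from its parts
-/

set_option autoImplicit false

namespace WGTwin

open WGirth

namespace RigidAux

theorem pull_even {V W : Type} {Λ : LGraph W} (h : IsEven Λ) (σ : V ≃ W) : IsEven (pull Λ σ) := by
  intro s t hst
  have h1 : Λ.graph.Adj (σ s) (σ t) := hst
  exact h _ _ h1

theorem pull_label {V W : Type} (Λ : LGraph W) (σ : V ≃ W) (s t : V) :
    (pull Λ σ).label s(s, t) = Λ.label s(σ s, σ t) := rfl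

end RigidAux

open RigidAux

theorem rigid (h1 : PreEx) (h2 : Transport) (h3 : PiEx) (h4 : LabelEq) : Rigid := by
  classical
  intro V W _ _ Γ Λ hΓ hΛ hT hiso
  obtain ⟨M, N, hP⟩ := h1 V W Γ Λ hΓ hΛ hiso
  obtain ⟨σ, M', N', hTD⟩ := h2 V W Γ Λ M N hP
  have hΛ' := pull_even hΛ σ
  obtain ⟨π, hπ1, hπ2, hπ3⟩ := h3 V Γ (pull Λ σ) M' N' hΓ hΛ' hTD hT
  have hL := h4 V Γ (pull Λ σ) M' N' hΓ hΛ' hTD hT π hπ1 hπ2 hπ3
  have hadj : ∀ a b, Γ.graph.Adj a b → Γ.graph.Adj (π a) (π b) := fun a b hab =>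
    (hTD.adj _ _).mpr (hL a b hab).1
  -- the converse
  have hconv : ∀ a b, Γ.graph.Adj (π a) (π b) → Γ.graph.Adj a b := by
    let s : Finset (V × V) := Finset.univ.filter (fun q => Γ.graph.Adj q.1 q.2)
    let f : V × V → V × V := fun q => (π q.1, π q.2)
    have hf : ∀ q ∈ s, f q ∈ s := by
      intro q hq
      simp only [s, f, Finset.mem_filter, Finset.mem_univ, true_and] at hq ⊢
      exact hadj _ _ hq
    have hinj : ∀ q ∈ s, ∀ q' ∈ s, f q = f q' → q = q' := by
      intro q _ q' _ h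
      simp only [f, Prod.mk.injEq, EmbeddingLike.apply_eq_iff_eq] at h
      exact Prod.ext h.1 h.2
    have hsurj := Finset.surj_on_of_inj_on_of_card_le (s := s) (t := s) (fun q _ => f q)
      (fun q hq => hf q hq) (fun q q' hq hq' h => hinj q hq q' hq' h) le_rfl
    intro a b hab
    have hm : (π a, π b) ∈ s := by
      simp only [s, Finset.mem_filter, Finset.mem_univ, true_and]
      exact hab
    obtain ⟨q, hq, hq2⟩ := hsurj _ hm
    simp only [f, Prod.mk.injEq, EmbeddingLike.apply_eq_iff_eq] at hq2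
    simp only [s, Finset.mem_filter, Finset.mem_univ, true_and] at hq
    rw [hq2.1, hq2.2]
    exact hq
  refine ⟨π.trans σ, ?_, ?_⟩
  · intro a b
    constructor
    · intro hab
      exact (hL a b hab).1
    · intro hab
      exact hconv a b ((hTD.adj _ _).mpr hab)
  · intro a b hab
    obtain ⟨h5, h6⟩ := hL a b hab
    have h7 := hΓ.label_eq hab
    have h8 := hΛ'.label_eq h5
    have h9 := pull_label Λ σ (π a) (π b)
    simp only [Equiv.coe_trans, Function.comp_apply]
    rw [← h9, h8, h7, h6]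

end WGTwin
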