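import Pool.Agent.Lib.MP_107652_al.Twin.Spec

/-!
# MP_107652_al, Twin/Transport: pulling everything back to one vertex set
-/

set_option autoImplicit false

open Finset

namespace WGTwin

open WGirth

namespace TransportAux

variable {V W : Type} [Fintype V] [Fintype W] [DecidableEq V] [DecidableEq W]

theorem half_pull (Λ : LGraph W) (σ : V ≃ W) (i j : V) :
    half (pull Λ σ) i j = half Λ (σ i) (σ j) := rfl

theorem adj_pull (Λ : LGraph W) (σ : V ≃ W) (i j : V) :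
    (pull Λ σ).graph.Adj i j ↔ Λ.graph.Adj (σ i) (σ j) := Iff.rfl

theorem nn_pull (M : W → V → ℤ) (σ : V ≃ W) (a b : V) (A : Finset V) (m : V → ℤ) (v : V) :
    nn M (σ a) (σ b) (A.map σ.toEmbedding) (fun w => m (σ.symm w)) v =
      nn (fun x y => M (σ x) y) a b A m v := by
  unfold nn
  have h1 : (A.map σ.toEmbedding).erase (σ a) = (A.erase a).map σ.toEmbedding := by
    rw [Finset.map_erase]
    rfl
  rw [h1, Finset.sum_map]
  simp

theorem starN (Γ : LGraph V) (Λ : LGraph W) (N : V → W → ℤ) (σ : V ≃ W) (h : StarP Γ Λ N) :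
    StarP Γ (pull Λ σ) (fun v w => N v (σ w)) := by
  intro p hp a b hab hpk A haA hbA hA m S T1 T2 M' hAS hbS hsum hadj h1 h2
  have key := h p hp a b hab hpk A haA hbA hA m S (T1.map σ.toEmbedding) (T2.map σ.toEmbedding)
    (fun w s => M' (σ.symm w) s) hAS hbS ?_ ?_ ?_ ?_
  · obtain ⟨v, hv, u, hu, h3, h4⟩ := key
    obtain ⟨v, hv', rfl⟩ := Finset.mem_map.mp hv
    obtain ⟨u, hu', rfl⟩ := Finset.mem_map.mp hu
    exact ⟨v, hv', u, hu', h3, h4⟩
  · intro s hs s' hs'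
    rw [← hsum s hs s' hs', ← Finset.map_union, Finset.sum_map]
    refine Finset.sum_congr rfl fun w _ => ?_
    simp
  · intro v hv u hu
    obtain ⟨v, hv', rfl⟩ := Finset.mem_map.mp hv
    obtain ⟨u, hu', rfl⟩ := Finset.mem_map.mp hu
    exact hadj v hv' u hu'
  · obtain ⟨v, hv, hv'⟩ := h1
    exact ⟨σ v, Finset.mem_map.mpr ⟨v, hv, rfl⟩, hv'⟩
  · obtain ⟨v, hv, hv'⟩ := h2
    exact ⟨σ v, Finset.mem_map.mpr ⟨v, hv, rfl⟩, hv'⟩

theorem starM (Γ : LGraph V) (Λ : LGraph W) (M : W → V → ℤ) (σ : V ≃ W) (h : StarP Λ Γ M) :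
    StarP (pull Λ σ) Γ (fun v w => M (σ v) w) := by
  intro p hp a b hab hpk A haA hbA hA m S T1 T2 M' hAS hbS hsum hadj h1 h2
  have key := h p hp (σ a) (σ b) hab hpk (A.map σ.toEmbedding) (Finset.mem_map.mpr ⟨a, haA, rfl⟩)
    ?_ ?_ (fun w => m (σ.symm w)) (S.map σ.toEmbedding) T1 T2
    (fun w s => M' w (σ.symm s)) (Finset.map_subset_map.mpr hAS)
    (Finset.mem_map.mpr ⟨b, hbS, rfl⟩) ?_ hadj ?_ ?_
  · obtain ⟨v, hv, u, hu, h3, h4⟩ := key
    rw [nn_pull, nn_pull] at h3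
    exact ⟨v, hv, u, hu, h3, h4⟩
  · intro hb
    obtain ⟨c, hc, hc'⟩ := Finset.mem_map.mp hb
    have : c = b := σ.injective hc'
    exact hbA (this ▸ hc)
  · intro x hx y hy
    obtain ⟨x, hx', rfl⟩ := Finset.mem_map.mp hx
    obtain ⟨y, hy', rfl⟩ := Finset.mem_map.mp hy
    exact hA x hx' y hy'
  · intro s hs s' hs'
    obtain ⟨s, hs1, rfl⟩ := Finset.mem_map.mp hs
    obtain ⟨s', hs2, rfl⟩ := Finset.mem_map.mp hs'
    have h3 := hsum s hs1 s' hs2
    simp only [Equiv.coe_toEmbedding, Equiv.symm_apply_apply, EmbeddingLike.apply_eq_iff_eq]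
    exact h3
  · obtain ⟨v, hv, hv'⟩ := h1
    exact ⟨v, hv, by rw [nn_pull]; exact hv'⟩
  · obtain ⟨v, hv, hv'⟩ := h2
    exact ⟨v, hv, by rw [nn_pull]; exact hv'⟩

end TransportAux

open TransportAux in
theorem transport (h1 : PermEx) (h2 : DomM) (h3 : DomN) (h4 : AdjIso) : Transport := by
  intro V W _ _ _ _ Γ Λ M N hpre
  obtain ⟨σ, hσ⟩ := h1 V W M N hpre.nm hpre.mn
  obtain ⟨hdeg, hdomM⟩ := h2 V W Γ Λ M N hpre σ hσ
  have hdomN := h3 V W Λ M N hpre.nm σ hdomM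
  have hadj := h4 V W Γ Λ M N hpre σ hσ hdeg hdomM hdomN
  refine ⟨σ, fun v w => M (σ v) w, fun v w => N v (σ w), ?_⟩
  have hdom : ∀ v l : V, Dom Λ (σ v) (σ l) → Dom Γ v l := by
    intro v l hd j hj
    rcases hd (σ j) ((hadj v j).mp hj) with h | h
    · exact Or.inl (σ.injective h)
    · exact Or.inr ((hadj j l).mpr h)
  refine ⟨⟨?_, ?_, ?_, ?_, ?_, ?_, ?_, ?_⟩, ?_, ?_, ?_⟩
  · intro v w
    rw [← hpre.nm v w]
    exact Equiv.sum_comp σ (fun i => N v i * M i w)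
  · intro i j
    rw [hpre.mn (σ i) (σ j)]
    simp only [EmbeddingLike.apply_eq_iff_eq]
  · intro a b hab i j hij
    exact hpre.heisM a b hab (σ i) (σ j) hij
  · intro a b hab i j hij hn
    exact hpre.heisM0 a b hab (σ i) (σ j) (fun h => hij (σ.injective h)) hn
  · intro i j hij a b hab
    exact hpre.heisN (σ i) (σ j) hij a b hab
  · intro i j hij a b hab hn
    exact hpre.heisN0 (σ i) (σ j) hij a b hab hn
  · exact starN Γ Λ N σ hpre.starN
  · exact starM Γ Λ M σ hpre.starM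
  · intro a b
    exact hadj a b
  · intro v l hM
    exact hdom v l (hdomM v (σ l) hM)
  · intro v l hN
    exact hdom l v (hdomN v (σ l) hN)

end WGTwin
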