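import Pool.Agent.Lib.MP_107652_al.Twin.Spec

/-!
# MP_107652_al, UnitCol: heavy vertices
-/

set_option autoImplicit false

open Finset

namespace WGTwin

open WGirth

namespace UnitColAux

variable {V : Type}

theorem tw_refl (h3 : DomTr) (Γ : LGraph V) (a : V) : Tw Γ a a :=
  ⟨(h3 V Γ).1 a, (h3 V Γ).1 a⟩

theorem tw_symm {Γ : LGraph V} {a b : V} (h : Tw Γ a b) : Tw Γ b a := ⟨h.2, h.1⟩

theorem tw_trans (h3 : DomTr) {Γ : LGraph V} {a b c : V} (h : Tw Γ a b) (h' : Tw Γ b c) :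
    Tw Γ a c :=
  ⟨(h3 V Γ).2 a b c h.1 h'.1, (h3 V Γ).2 c b a h'.2 h.2⟩

theorem dom_iff {Γ Λ : LGraph V} (hadj : ∀ a b, Γ.graph.Adj a b ↔ Λ.graph.Adj a b) (a b : V) :
    Dom Γ a b ↔ Dom Λ a b := by
  unfold Dom
  simp only [hadj]

theorem tw_iff {Γ Λ : LGraph V} (hadj : ∀ a b, Γ.graph.Adj a b ↔ Λ.graph.Adj a b) (a b : V) :
    Tw Γ a b ↔ Tw Λ a b := by
  unfold Tw
  rw [dom_iff hadj, dom_iff hadj]

theorem mem_cls [Fintype V] (Γ : LGraph V) (x a : V) : x ∈ cls Γ a ↔ Tw Γ x a := by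
  classical
  unfold cls
  simp only [Finset.mem_filter, Finset.mem_univ, true_and]

/-- if `a` has no adjacent twin then its class is independent -/
theorem indep {Γ : LGraph V} {a : V} (h : ∀ x, Tw Γ x a → ¬ Γ.graph.Adj x a) {x y : V}
    (hx : Tw Γ x a) (hy : Tw Γ y a) : ¬ Γ.graph.Adj x y := by
  intro hxy
  rcases hx.1 y hxy with h1 | h1
  · subst h1
    exact h x hx hxy
  · exact h y hy h1

theorem two_le_half {Λ : LGraph V} (hΛ : IsEven Λ) {p : ℕ} (hp : p.Prime) {v u : V}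
    (hadj : Λ.graph.Adj v u) (hd : p ∣ half Λ v u) : 2 ≤ half Λ v u := by
  have h1 := hΛ.half_pos hadj
  exact hp.two_le.trans (Nat.le_of_dvd h1 hd)

end UnitColAux

open UnitColAux in
theorem unitCol (h1 : UnitCore) (h2 : ClassInv) (h3 : DomTr) : UnitCol := by
  intro V _ _ Γ Λ M N hΓ hΛ td hiso a ha
  obtain ⟨hat, b, hab, hb2⟩ := ha
  obtain ⟨p, hp, hpd⟩ := Nat.exists_prime_and_dvd (show half Γ a b ≠ 1 by omega)
  -- the first part of `Heavy Λ v`
  have hfirst : ∀ v, Tw Γ v a → ∀ x, Tw Λ x v → ¬ Λ.graph.Adj x v := by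
    intro v hv x hx hxv
    have hx' : Tw Γ x v := (tw_iff td.adj x v).mpr hx
    exact indep hat (tw_trans h3 hx' hv) hv ((td.adj x v).mpr hxv)
  by_cases hA : ∃ x ∈ cls Γ a, x ≠ a
  · obtain ⟨v, hv, u, _, hvu, hd, hN⟩ := h1 V Γ Λ M N td p a b hp hab hpd
      (fun x hx y hy => indep hat ((mem_cls Γ x a).mp hx) ((mem_cls Γ y a).mp hy)) hA
    have hv' := (mem_cls Γ v a).mp hv
    have hvu' := (td.adj v u).mp hvu
    exact ⟨v, hv', ⟨hfirst v hv', u, hvu', two_le_half hΛ hp hvu' hd⟩,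
      fun x hx hxa => hN x ((mem_cls Γ x a).mpr hx) hxa⟩
  · have hA' : ∀ x, Tw Γ x a → x = a := by
      intro x hx
      by_contra h
      exact hA ⟨x, (mem_cls Γ x a).mpr hx, h⟩
    refine ⟨a, tw_refl h3 Γ a, ⟨hfirst a (tw_refl h3 Γ a), ?_⟩,
      fun x hx hxa => absurd (hA' x hx) hxa⟩
    by_cases hB : ∃ x ∈ cls Γ b, x ≠ b
    · have hbt : ∀ x, Tw Γ x b → ¬ Γ.graph.Adj x b := by
        intro x hx hxb
        have h4 := hiso b x hxb.symm (tw_symm hx) a hab.symm
        rw [← h4] at hx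
        exact hab.ne (hA' b (tw_symm hx)).symm
      obtain ⟨v, _, u, hu, hvu, hd, _⟩ := h1 V Γ Λ M N td p b a hp hab.symm
        (by rw [half_comm]; exact hpd)
        (fun x hx y hy => indep hbt ((mem_cls Γ x b).mp hx) ((mem_cls Γ y b).mp hy)) hB
      have hu' := hA' u ((mem_cls Γ u a).mp hu)
      subst hu'
      have hvu' := (td.adj v u).mp hvu
      refine ⟨v, hvu'.symm, ?_⟩
      rw [half_comm]
      exact two_le_half hΛ hp hvu' hd
    · have hB' : ∀ x, Tw Γ x b → x = b := by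
        intro x hx
        by_contra h
        exact hB ⟨x, (mem_cls Γ x b).mpr hx, h⟩
      have hca : cls Γ a = {a} := by
        ext x
        rw [mem_cls, Finset.mem_singleton]
        exact ⟨hA' x, fun h => h ▸ tw_refl h3 Γ a⟩
      have hcb : cls Γ b = {b} := by
        ext x
        rw [mem_cls, Finset.mem_singleton]
        exact ⟨hB' x, fun h => h ▸ tw_refl h3 Γ b⟩
      have ea := (h2 V Γ Λ M N td a a a ((mem_cls Γ a a).mpr (tw_refl h3 Γ a))
        ((mem_cls Γ a a).mpr (tw_refl h3 Γ a))).1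
      have eb := (h2 V Γ Λ M N td b b b ((mem_cls Γ b b).mpr (tw_refl h3 Γ b))
        ((mem_cls Γ b b).mpr (tw_refl h3 Γ b))).1
      rw [hca, Finset.sum_singleton, if_pos rfl] at ea
      rw [hcb, Finset.sum_singleton, if_pos rfl] at eb
      have e0 : N b a * N a b = 0 := by
        by_contra h
        have h4 : N b a ≠ 0 := left_ne_zero_of_mul h
        have h5 : N a b ≠ 0 := right_ne_zero_of_mul h
        have h6 := td.domN b a h4
        have h7 := td.domN a b h5
        exact hab.ne (hA' b ⟨h7, h6⟩).symm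
      have hab' := (td.adj a b).mp hab
      have hdiv := td.pre.heisN a b hab' a b hab
      rw [e0, sub_zero] at hdiv
      have hdiv2 : (half Γ a b : ℤ) ∣ (half Λ a b : ℤ) := by
        have h4 : (half Λ a b : ℤ) = half Λ a b * (N a a * N b b) * (M a a * M b b) := by
          have h5 : N a a * N b b * (M a a * M b b) = (N a a * M a a) * (N b b * M b b) := by ring
          rw [mul_assoc, h5, ea, eb]
          ring
        rw [h4]
        exact Dvd.dvd.mul_right hdiv _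
      have hdiv3 : half Γ a b ∣ half Λ a b := by exact_mod_cast hdiv2
      exact ⟨b, hab', hb2.trans (Nat.le_of_dvd (hΛ.half_pos hab') hdiv3)⟩

end WGTwin
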