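import Pool.Agent.Lib.MP_107652_al.Twin.Spec

/-!
# MP_107652_al: star representations and twin classes
-/

set_option autoImplicit false
set_option linter.unusedSectionVars false

open Finset

namespace WGTwin

open WGirth

namespace UnitCoreAux

theorem mem_cls {V : Type} [Fintype V] (Γ : LGraph V) (v w : V) : w ∈ cls Γ v ↔ Tw Γ w v := by
  classical
  unfold cls
  simp

variable {V : Type} [Fintype V] [DecidableEq V]

/-- complete between the classes -/
theorem adjAB (h2 : DomTr) {Γ : LGraph V} {a b : V} (hab : Γ.graph.Adj a b)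
    (hind : ∀ x ∈ cls Γ a, ∀ y ∈ cls Γ a, ¬ Γ.graph.Adj x y) :
    ∀ x ∈ cls Γ a, ∀ w ∈ cls Γ b, Γ.graph.Adj x w := by
  intro x hx w hw
  have haA : a ∈ cls Γ a := (mem_cls Γ a a).mpr ⟨(h2 V Γ).1 a, (h2 V Γ).1 a⟩
  have hbA : b ∉ cls Γ a := fun h => hind a haA b h hab
  rw [mem_cls] at hx hw
  have h3 : Γ.graph.Adj b x := by
    rcases hx.2 b hab with h | h
    · exact absurd ((mem_cls Γ a b).mpr (h ▸ hx)) hbA
    · exact h
  rcases hw.2 x h3 with h | h
  · exfalso
    apply hbA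
    rw [mem_cls]
    subst h
    exact ⟨(h2 V Γ).2 _ _ _ hw.2 hx.1, (h2 V Γ).2 _ _ _ hx.2 hw.1⟩
  · exact h

theorem disj (h2 : DomTr) {Γ : LGraph V} {a b : V} (hab : Γ.graph.Adj a b)
    (hind : ∀ x ∈ cls Γ a, ∀ y ∈ cls Γ a, ¬ Γ.graph.Adj x y) :
    Disjoint (cls Γ a) (cls Γ b) := by
  rw [Finset.disjoint_left]
  intro x hx hx'
  exact Γ.graph.loopless.irrefl x (adjAB h2 hab hind x hx x hx')

/-- the matrix on the union of two classes -/
noncomputable def MM (Γ : LGraph V) (a b : V) (M N : V → V → ℤ) (w s : V) : ℤ :=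
  if w ∈ cls Γ a then (if s ∈ cls Γ a then M w s else 0)
  else (if s ∈ cls Γ a then - ∑ z ∈ cls Γ b, M w z * ∑ v ∈ cls Γ a, N z v * M v s else M w s)

theorem sumMM {Γ : LGraph V} {a b : V} {M N : V → V → ℤ}
    (hdis : Disjoint (cls Γ a) (cls Γ b))
    (hA : ∀ x y, x ∈ cls Γ a → y ∈ cls Γ a →
      ∑ w ∈ cls Γ a, N x w * M w y = if x = y then 1 else 0)
    (hB : ∀ x y, x ∈ cls Γ b → y ∈ cls Γ b →
      ∑ w ∈ cls Γ b, N x w * M w y = if x = y then 1 else 0)
    (hN : ∀ x ∈ cls Γ a, ∀ w ∈ cls Γ b, N x w = 0) :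
    ∀ s ∈ cls Γ a ∪ cls Γ b, ∀ s' ∈ cls Γ a ∪ cls Γ b,
      ∑ w ∈ cls Γ a ∪ cls Γ b, N s' w * MM Γ a b M N w s = if s' = s then 1 else 0 := by
  intro s hs s' hs'
  have hnot : ∀ w ∈ cls Γ b, w ∉ cls Γ a := fun w hw h => (Finset.disjoint_left.mp hdis h hw)
  rw [Finset.sum_union hdis]
  rw [Finset.mem_union] at hs hs'
  rcases hs' with hs' | hs'
  · have e2 : ∑ w ∈ cls Γ b, N s' w * MM Γ a b M N w s = 0 := by
      apply Finset.sum_eq_zero
      intro w hw
      rw [hN s' hs' w hw, zero_mul]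
    rw [e2, add_zero]
    rcases hs with hs | hs
    · rw [← hA s' s hs' hs]
      apply Finset.sum_congr rfl
      intro w hw
      unfold MM
      rw [if_pos hw, if_pos hs]
    · have hs2 := hnot s hs
      have hne : s' ≠ s := fun h => hs2 (h ▸ hs')
      rw [if_neg hne]
      apply Finset.sum_eq_zero
      intro w hw
      unfold MM
      rw [if_pos hw, if_neg hs2, mul_zero]
  · rcases hs with hs | hs
    · have hne : s' ≠ s := fun h => hnot s' hs' (h ▸ hs)
      rw [if_neg hne]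
      have e1 : ∑ w ∈ cls Γ a, N s' w * MM Γ a b M N w s = ∑ w ∈ cls Γ a, N s' w * M w s := by
        apply Finset.sum_congr rfl
        intro w hw
        unfold MM
        rw [if_pos hw, if_pos hs]
      have e2 : ∑ w ∈ cls Γ b, N s' w * MM Γ a b M N w s
          = - ∑ w ∈ cls Γ b, ∑ z ∈ cls Γ b,
            N s' w * M w z * ∑ v ∈ cls Γ a, N z v * M v s := by
        rw [← Finset.sum_neg_distrib]
        apply Finset.sum_congr rfl
        intro w hw
        unfold MM
        rw [if_neg (hnot w hw), if_pos hs, mul_neg, Finset.mul_sum]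
        congr 1
        apply Finset.sum_congr rfl
        intro z _
        ring
      have e3 : ∑ w ∈ cls Γ b, ∑ z ∈ cls Γ b,
            N s' w * M w z * ∑ v ∈ cls Γ a, N z v * M v s
          = ∑ v ∈ cls Γ a, N s' v * M v s := by
        rw [Finset.sum_comm]
        have e4 : ∀ z ∈ cls Γ b, ∑ w ∈ cls Γ b, N s' w * M w z * ∑ v ∈ cls Γ a, N z v * M v s
            = if s' = z then ∑ v ∈ cls Γ a, N z v * M v s else 0 := by
          intro z hz
          rw [← Finset.sum_mul, hB s' z hs' hz]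
          split_ifs
          · rw [one_mul]
          · rw [zero_mul]
        rw [Finset.sum_congr rfl e4, Finset.sum_ite_eq, if_pos hs']
      rw [e1, e2, e3]
      ring
    · have hs2 := hnot s hs
      have e1 : ∑ w ∈ cls Γ a, N s' w * MM Γ a b M N w s = 0 := by
        apply Finset.sum_eq_zero
        intro w hw
        unfold MM
        rw [if_pos hw, if_neg hs2, mul_zero]
      rw [e1, zero_add, ← hB s' s hs' hs]
      apply Finset.sum_congr rfl
      intro w hw
      unfold MM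
      rw [if_neg (hnot w hw), if_neg hs2]

/-- the polynomial of a vertex -/
noncomputable def P (N : V → V → ℤ) (a b : V) (A : Finset V) (idx : V → ℕ) (v : V) :
    Polynomial ℤ :=
  Polynomial.C (N a v - N b v) + ∑ x ∈ A.erase a, Polynomial.C (N x v) * Polynomial.X ^ idx x

theorem eval_P (N : V → V → ℤ) (a b : V) (A : Finset V) (idx : V → ℕ) (v : V) (z : ℤ) :
    (P N a b A idx v).eval z = nn N a b A (fun x => z ^ idx x) v := by
  unfold P nn
  rw [Polynomial.eval_add, Polynomial.eval_C, Polynomial.eval_finsetSum]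
  congr 1
  apply Finset.sum_congr rfl
  intro x _
  simp [mul_comm]

theorem coeff_P (N : V → V → ℤ) (a b : V) (A : Finset V) (idx : V → ℕ)
    (hinj : Function.Injective idx) (hpos : ∀ v, idx v ≠ 0) (v x : V) (hx : x ∈ A.erase a) :
    (P N a b A idx v).coeff (idx x) = N x v := by
  unfold P
  rw [Polynomial.coeff_add, Polynomial.coeff_C, if_neg (hpos x), zero_add,
    Polynomial.finsetSum_coeff]
  rw [Finset.sum_eq_single x]
  · simp
  · intro y _ hy
    rw [Polynomial.coeff_C_mul, Polynomial.coeff_X_pow, if_neg, mul_zero]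
    intro h
    exact hy (hinj h).symm
  · intro h
    exact absurd hx h

end UnitCoreAux

open UnitCoreAux

theorem unitCore (h1 : ClassInv) (h2 : DomTr) : UnitCore := by
  intro V _ _ Γ Λ M N hTD p a b hp hab hpk hind hex
  obtain ⟨x0, hx0, hx0a⟩ := hex
  have haA : a ∈ cls Γ a := (mem_cls Γ a a).mpr ⟨(h2 V Γ).1 a, (h2 V Γ).1 a⟩
  have hbB : b ∈ cls Γ b := (mem_cls Γ b b).mpr ⟨(h2 V Γ).1 b, (h2 V Γ).1 b⟩
  have hbA : b ∉ cls Γ a := fun h => hind a haA b h hab
  have hadj := adjAB h2 hab hind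
  have hdis := disj h2 hab hind
  have hN : ∀ x ∈ cls Γ a, ∀ w ∈ cls Γ b, N x w = 0 := by
    intro x hx w hw
    by_contra hne
    have hd := hTD.domN x w hne
    obtain ⟨a', ha', hne'⟩ : ∃ a' ∈ cls Γ a, a' ≠ x := by
      by_cases hxa : x = a
      · exact ⟨x0, hx0, hxa ▸ hx0a⟩
      · exact ⟨a, haA, fun h => hxa h.symm⟩
    rcases hd a' (hadj a' ha' w hw).symm with h | h
    · exact hne' h
    · exact hind a' ha' x hx h
  have hsum := sumMM (Γ := Γ) (a := a) (b := b) (M := M) (N := N) hdis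
    (fun x y hx hy => (h1 V Γ Λ M N hTD a x y hx hy).1)
    (fun x y hx hy => (h1 V Γ Λ M N hTD b x y hx hy).1) hN
  have hnnB : ∀ (m : V → ℤ) (u : V), u ∈ cls Γ b → nn N a b (cls Γ a) m u = - N b u := by
    intro m u hu
    unfold nn
    rw [hN a haA u hu, Finset.sum_eq_zero]
    · ring
    · intro x hx
      rw [hN x (Finset.mem_of_mem_erase hx) u hu, mul_zero]
  have hu0 : ∃ u ∈ cls Γ b, N b u ≠ 0 := by
    by_contra hcon
    push Not at hcon
    have h := (h1 V Γ Λ M N hTD b b b hbB hbB).1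
    rw [Finset.sum_eq_zero, if_pos rfl] at h
    · exact zero_ne_one h
    · intro w hw
      rw [hcon w hw, zero_mul]
  have hv0 : ∃ v ∈ cls Γ a, N x0 v ≠ 0 := by
    by_contra hcon
    push Not at hcon
    have h := (h1 V Γ Λ M N hTD a x0 x0 hx0 hx0).1
    rw [Finset.sum_eq_zero, if_pos rfl] at h
    · exact zero_ne_one h
    · intro w hw
      rw [hcon w hw, zero_mul]
  obtain ⟨u0, hu0, hu0'⟩ := hu0
  obtain ⟨v0, hv0, hv0'⟩ := hv0
  obtain ⟨idx, hinj, hpos⟩ : ∃ idx : V → ℕ, Function.Injective idx ∧ ∀ v, idx v ≠ 0 := by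
    refine ⟨fun v => (Fintype.equivFin V v : ℕ) + 1, ?_, fun v => Nat.succ_ne_zero _⟩
    intro v w h
    have h' : (Fintype.equivFin V v : ℕ) = (Fintype.equivFin V w : ℕ) := by
      simpa using h
    exact (Fintype.equivFin V).injective (Fin.ext h')
  have hx0e : x0 ∈ (cls Γ a).erase a := Finset.mem_erase.mpr ⟨hx0a, hx0⟩
  have hP0 : P N a b (cls Γ a) idx v0 ≠ 0 := by
    intro h
    have := coeff_P N a b (cls Γ a) idx hinj hpos v0 x0 hx0e
    rw [h, Polynomial.coeff_zero] at this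
    exact hv0' this.symm
  -- some pair gives a constant polynomial
  have hkey : ∃ v ∈ cls Γ a, ∃ u ∈ cls Γ b, p ∣ half Λ v u ∧
      P N a b (cls Γ a) idx v - Polynomial.C (N b u) = 0 := by
    by_contra hcon
    push Not at hcon
    classical
    let Q : Polynomial ℤ := P N a b (cls Γ a) idx v0 *
      ∏ q ∈ ((cls Γ a) ×ˢ (cls Γ b)).filter (fun q => p ∣ half Λ q.1 q.2),
        (P N a b (cls Γ a) idx q.1 - Polynomial.C (N b q.2))
    have hQ : Q ≠ 0 := by
      apply mul_ne_zero hP0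
      rw [Finset.prod_ne_zero_iff]
      intro q hq
      rw [Finset.mem_filter, Finset.mem_product] at hq
      exact hcon q.1 hq.1.1 q.2 hq.1.2 hq.2
    obtain ⟨z, hz⟩ : ∃ z : ℤ, Q.eval z ≠ 0 := by
      by_contra hcon2
      push Not at hcon2
      exact hQ (Polynomial.funext (fun z => by rw [hcon2 z, Polynomial.eval_zero]))
    rw [Polynomial.eval_mul, Polynomial.eval_prod] at hz
    have hz1 := left_ne_zero_of_mul hz
    have hz2 := right_ne_zero_of_mul hz
    rw [Finset.prod_ne_zero_iff] at hz2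
    rw [eval_P] at hz1
    obtain ⟨v, hv, u, hu, hvu, hpd⟩ := hTD.pre.starN p hp a b hab hpk (cls Γ a) haA hbA hind
      (fun x => z ^ idx x) (cls Γ a ∪ cls Γ b) (cls Γ a) (cls Γ b) (MM Γ a b M N)
      Finset.subset_union_left (Finset.mem_union_right _ hbB) hsum
      (fun v hv u hu => (hTD.adj _ _).mp (hadj v hv u hu))
      ⟨v0, hv0, hz1⟩ ⟨u0, hu0, by rw [hnnB _ _ hu0]; exact neg_ne_zero.mpr hu0'⟩
    apply hz2 (v, u) (by
      rw [Finset.mem_filter, Finset.mem_product]
      exact ⟨⟨hv, hu⟩, hpd⟩)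
    simp only [Polynomial.eval_sub, Polynomial.eval_C, eval_P]
    rw [hnnB _ _ hu] at hvu
    linarith
  obtain ⟨v, hv, u, hu, hpd, hPv⟩ := hkey
  refine ⟨v, hv, u, hu, hadj v hv u hu, hpd, ?_⟩
  intro x hx hxa
  have hxe : x ∈ (cls Γ a).erase a := Finset.mem_erase.mpr ⟨hxa, hx⟩
  have h5 := coeff_P N a b (cls Γ a) idx hinj hpos v x hxe
  rw [sub_eq_zero.mp hPv, Polynomial.coeff_C, if_neg (hpos x)] at h5
  exact h5.symm

end WGTwin
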