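import Pool.Agent.Lib.MP_107652_al.Twin.Spec

/-!
# MP_107652_al: the column of a heavy vertex, symmetric form
-/

set_option autoImplicit false

open Finset

namespace WGTwin

open WGirth

namespace UnitSymAux

theorem mem_cls {V : Type} [Fintype V] (Γ : LGraph V) (a w : V) : w ∈ cls Γ a ↔ Tw Γ w a := by
  classical
  unfold cls
  rw [Finset.mem_filter]
  exact ⟨fun h => h.2, fun h => ⟨Finset.mem_univ _, h⟩⟩

theorem tw_refl {V : Type} (Γ : LGraph V) (a : V) : Tw Γ a a :=
  ⟨fun _ hj => Or.inr hj.symm, fun _ hj => Or.inr hj.symm⟩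

end UnitSymAux

open UnitSymAux in
/-- **UnitSym.** -/
theorem unitSym (h : ClassInv) : UnitSym := by
  intro V _ _ Γ Λ M N hTD a v hv hz
  have ha : a ∈ cls Γ a := (mem_cls Γ a a).mpr (tw_refl Γ a)
  have hv' : v ∈ cls Γ a := (mem_cls Γ a v).mpr hv
  have key : ∀ w, Tw Γ w a → M w a * N a v = if w = v then 1 else 0 := by
    intro w hw
    have h1 := (h V Γ Λ M N hTD a w v ((mem_cls Γ a w).mpr hw) hv').2
    rw [← h1]
    symm
    refine Finset.sum_eq_single_of_mem a ha fun x hx hxa => ?_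
    rw [hz x ((mem_cls Γ a x).mp hx) hxa, mul_zero]
  have h1 : M v a * N a v = 1 := by
    rw [key v hv, if_pos rfl]
  refine ⟨h1, fun w hw hwv => ?_⟩
  have h2 := key w hw
  rw [if_neg hwv] at h2
  rcases mul_eq_zero.mp h2 with h3 | h3
  · exact h3
  · rw [h3, mul_zero] at h1
    exact absurd h1 zero_ne_one

end WGTwin
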